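import Mathlib

/-!
# Leading terms over a small field

`k` is a field, `w` a valuation of `k[y]` such that two polynomials with the same value agree up to
a constant modulo smaller values. Polynomials over an extension of `k` then have leading terms,
which are kept by field homomorphisms.
-/

namespace Pool.Agent.Helper62.VT

open MvPolynomial

section Lead

variable {r : ℕ} {k : Type*} [Field k] {Γ₀ : Type*} [LinearOrderedCommGroupWithZero Γ₀]
  (w : Valuation (MvPolynomial (Fin r) k) Γ₀)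

/-- Combinations of polynomials over `k` with value below `γ`. -/
noncomputable def low {A : Type*} [Field A] (a : k →+* A) (γ : Γ₀) : Submodule A (MvPolynomial (Fin r) A) :=
  Submodule.span A {f | ∃ χ : MvPolynomial (Fin r) k, w χ < γ ∧ f = map a χ}

/-- `f` has leading term `κ φ`. -/
def Lead {A : Type*} [Field A] (a : k →+* A) (f : MvPolynomial (Fin r) A)
    (φ : MvPolynomial (Fin r) k) (κ : A) : Prop :=
  φ ≠ 0 ∧ κ ≠ 0 ∧ f - C κ * map a φ ∈ low w a (w φ)

variable {w}

theorem C_mul_mem_low {A : Type*} [Field A] {a : k →+* A} {γ : Γ₀} {x : MvPolynomial (Fin r) A}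
    (hx : x ∈ low w a γ) (c : A) : C c * x ∈ low w a γ := by
  rw [C_mul']
  exact Submodule.smul_mem _ _ hx

theorem low_mul {A : Type*} [Field A] {a : k →+* A} {γ δ : Γ₀} {x y : MvPolynomial (Fin r) A}
    (hx : x ∈ low w a γ) (hy : y ∈ low w a δ) : x * y ∈ low w a (γ * δ) := by
  induction hx using Submodule.span_induction with
  | mem x hx =>
    obtain ⟨χ, hχ, rfl⟩ := hx
    induction hy using Submodule.span_induction with
    | mem y hy =>
      obtain ⟨ψ, hψ, rfl⟩ := hy
      refine Submodule.subset_span ⟨χ * ψ, ?_, (map_mul _ _ _).symm⟩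
      rw [map_mul]
      exact mul_lt_mul'' hχ hψ zero_le zero_le
    | zero => rw [mul_zero]; exact Submodule.zero_mem _
    | add y z _ _ hy hz => rw [mul_add]; exact Submodule.add_mem _ hy hz
    | smul c y _ hy => rw [mul_smul_comm]; exact Submodule.smul_mem _ _ hy
  | zero => rw [zero_mul]; exact Submodule.zero_mem _
  | add x z _ _ hx hz => rw [add_mul]; exact Submodule.add_mem _ hx hz
  | smul c x _ hx => rw [smul_mul_assoc]; exact Submodule.smul_mem _ _ hx

theorem map_mul_low {A : Type*} [Field A] {a : k →+* A} {δ : Γ₀} {y : MvPolynomial (Fin r) A}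
    {φ : MvPolynomial (Fin r) k} (hφ : w φ ≠ 0)
    (hy : y ∈ low w a δ) : map a φ * y ∈ low w a (w φ * δ) := by
  induction hy using Submodule.span_induction with
  | mem y hy =>
    obtain ⟨ψ, hψ, rfl⟩ := hy
    refine Submodule.subset_span ⟨φ * ψ, ?_, (map_mul _ _ _).symm⟩
    rw [map_mul]
    exact mul_lt_mul_of_pos_left hψ (zero_lt_iff.2 hφ)
  | zero => rw [mul_zero]; exact Submodule.zero_mem _
  | add y z _ _ hy hz => rw [mul_add]; exact Submodule.add_mem _ hy hz
  | smul c y _ hy => rw [mul_smul_comm]; exact Submodule.smul_mem _ _ hy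

variable (h0 : ∀ φ, w φ = 0 → φ = 0)
include h0

theorem Lead.mul {A : Type*} [Field A] {a : k →+* A} {f g : MvPolynomial (Fin r) A}
    {φ ψ : MvPolynomial (Fin r) k} {κ l : A} (hf : Lead w a f φ κ) (hg : Lead w a g ψ l) :
    Lead w a (f * g) (φ * ψ) (κ * l) := by
  obtain ⟨hφ, hκ, hf⟩ := hf
  obtain ⟨hψ, hl, hg⟩ := hg
  have hwφ : w φ ≠ 0 := fun h => hφ (h0 _ h)
  have hwψ : w ψ ≠ 0 := fun h => hψ (h0 _ h)
  refine ⟨mul_ne_zero hφ hψ, mul_ne_zero hκ hl, ?_⟩
  have e : f * g - C (κ * l) * map a (φ * ψ) =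
      (f - C κ * map a φ) * (g - C l * map a ψ) + C κ * (map a φ * (g - C l * map a ψ)) +
        C l * (map a ψ * (f - C κ * map a φ)) := by
    rw [C_mul, map_mul]
    ring
  rw [e, map_mul]
  refine Submodule.add_mem _ (Submodule.add_mem _ (low_mul hf hg)
    (C_mul_mem_low (map_mul_low hwφ hg) _)) ?_
  rw [mul_comm (w φ)]
  exact C_mul_mem_low (map_mul_low hwψ hf) _

omit h0 in
theorem Lead.one {A : Type*} [Field A] {a : k →+* A} :
    Lead w a (1 : MvPolynomial (Fin r) A) 1 1 := by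
  refine ⟨one_ne_zero, one_ne_zero, ?_⟩
  have h : (1 : MvPolynomial (Fin r) A) - C 1 * map a 1 = 0 := by
    rw [map_one, map_one, one_mul, sub_self]
  rw [h]
  exact Submodule.zero_mem _

theorem Lead.pow {A : Type*} [Field A] {a : k →+* A} {f : MvPolynomial (Fin r) A}
    {φ : MvPolynomial (Fin r) k} {κ : A} (hf : Lead w a f φ κ) (n : ℕ) :
    Lead w a (f ^ n) (φ ^ n) (κ ^ n) := by
  induction n with
  | zero => simpa using Lead.one
  | succ n ih =>
    rw [pow_succ, pow_succ, pow_succ]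
    exact ih.mul h0 hf

theorem Lead.prod {A : Type*} [Field A] {a : k →+* A} {ι : Type*} (s : Finset ι)
    {f : ι → MvPolynomial (Fin r) A} {φ : ι → MvPolynomial (Fin r) k} {κ : ι → A}
    (hf : ∀ i ∈ s, Lead w a (f i) (φ i) (κ i)) :
    Lead w a (∏ i ∈ s, f i) (∏ i ∈ s, φ i) (∏ i ∈ s, κ i) := by
  classical
  induction s using Finset.induction_on with
  | empty => simpa using Lead.one
  | insert i s hi ih =>
    rw [Finset.prod_insert hi, Finset.prod_insert hi, Finset.prod_insert hi]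
    exact (hf i (Finset.mem_insert_self i s)).mul h0
      (ih fun j hj => hf j (Finset.mem_insert_of_mem hj))

/-- Every nonzero polynomial has a leading term. -/
theorem exists_lead (hR : ∀ φ ψ : MvPolynomial (Fin r) k, ψ ≠ 0 → w φ = w ψ →
      ∃ c : k, w (φ - C c * ψ) < w ψ) {A : Type*} [Field A] (a : k →+* A) {ι : Type*} :
    ∀ (s : Finset ι) (κ : ι → A) (φ : ι → MvPolynomial (Fin r) k),
      ∑ i ∈ s, C (κ i) * map a (φ i) ≠ 0 →
      ∃ ψ l, Lead w a (∑ i ∈ s, C (κ i) * map a (φ i)) ψ l := by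
  classical
  intro s
  induction s using Finset.strongInduction with
  | _ s ih =>
    intro κ φ hne
    have hs : s.Nonempty := by
      rw [Finset.nonempty_iff_ne_empty]
      rintro rfl
      exact hne Finset.sum_empty
    obtain ⟨i0, hi0, hmax⟩ := Finset.exists_max_image s (fun i => w (φ i)) hs
    have hφ0 : φ i0 ≠ 0 := by
      intro h
      apply hne
      apply Finset.sum_eq_zero
      intro i hi
      have h1 := hmax i hi
      rw [h, map_zero] at h1
      rw [h0 _ (le_zero_iff.1 h1), map_zero, mul_zero]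
    have key : ∀ i, ∃ c : k, i ∈ s → w (φ i - C c * φ i0) < w (φ i0) := by
      intro i
      by_cases hi : i ∈ s
      · rcases (hmax i hi).lt_or_eq with h | h
        · refine ⟨0, fun _ => ?_⟩
          rw [map_zero, zero_mul, sub_zero]
          exact h
        · obtain ⟨c, hc⟩ := hR (φ i) (φ i0) hφ0 h
          exact ⟨c, fun _ => hc⟩
      · exact ⟨0, fun h => absurd h hi⟩
    choose c hc using key
    set K := κ i0 + ∑ i ∈ s.erase i0, κ i * a (c i) with hK
    have hdec : ∑ i ∈ s, C (κ i) * map a (φ i) =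
        C K * map a (φ i0) + ∑ i ∈ s.erase i0, C (κ i) * map a (φ i - C (c i) * φ i0) := by
      rw [← Finset.add_sum_erase s _ hi0, hK, C_add, map_sum, add_mul, Finset.sum_mul, add_assoc,
        ← Finset.sum_add_distrib]
      congr 1
      refine Finset.sum_congr rfl fun i _ => ?_
      rw [C_mul, map_sub, map_mul (MvPolynomial.map a), map_C]
      ring
    by_cases hK0 : K = 0
    · rw [hdec, hK0, C_0, zero_mul, zero_add] at hne ⊢
      exact ih _ (Finset.erase_ssubset hi0) κ _ hne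
    · refine ⟨φ i0, K, hφ0, hK0, ?_⟩
      rw [hdec, add_sub_cancel_left]
      refine Submodule.sum_mem _ fun i hi => C_mul_mem_low (Submodule.subset_span ?_) _
      exact ⟨_, hc i (Finset.mem_of_mem_erase hi), rfl⟩

theorem exists_lead' (hR : ∀ φ ψ : MvPolynomial (Fin r) k, ψ ≠ 0 → w φ = w ψ →
      ∃ c : k, w (φ - C c * ψ) < w ψ) {A : Type*} [Field A] (a : k →+* A)
    {f : MvPolynomial (Fin r) A} (hf : f ≠ 0) : ∃ φ κ, Lead w a f φ κ := by
  have h1 : f = ∑ m ∈ f.support, C (f.coeff m) * map a (monomial m (1 : k)) := by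
    conv_lhs => rw [f.as_sum]
    refine Finset.sum_congr rfl fun m _ => ?_
    rw [map_monomial, map_one, C_mul_monomial, mul_one]
  rw [h1]
  apply exists_lead h0 hR
  rw [← h1]
  exact hf

omit h0 in
theorem low_map {A A' : Type*} [Field A] [Field A'] {a : k →+* A} (θ : A →+* A') {γ : Γ₀}
    {x : MvPolynomial (Fin r) A} (hx : x ∈ low w a γ) : map θ x ∈ low w (θ.comp a) γ := by
  induction hx using Submodule.span_induction with
  | mem x hx =>
    obtain ⟨χ, hχ, rfl⟩ := hx
    exact Submodule.subset_span ⟨χ, hχ, map_map _ _ _⟩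
  | zero => rw [map_zero]; exact Submodule.zero_mem _
  | add x z _ _ hx hz => rw [map_add]; exact Submodule.add_mem _ hx hz
  | smul c x _ hx =>
    rw [← C_mul', map_mul, map_C]
    exact C_mul_mem_low hx _

omit h0 in
theorem Lead.map {A A' : Type*} [Field A] [Field A'] {a : k →+* A} (θ : A →+* A')
    {f : MvPolynomial (Fin r) A} {φ : MvPolynomial (Fin r) k} {κ : A} (hf : Lead w a f φ κ) :
    Lead w (θ.comp a) (MvPolynomial.map θ f) φ (θ κ) := by
  obtain ⟨hφ, hκ, hf⟩ := hf
  refine ⟨hφ, (map_ne_zero θ).2 hκ, ?_⟩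
  have := low_map θ hf
  rwa [map_sub, map_mul, map_C, map_map] at this

/-- The value of a polynomial with a leading term. -/
theorem Lead.value {K : Type*} [Field K] {j : k →+* K} (v : Valuation (MvPolynomial (Fin r) K) Γ₀)
    (hv : ∀ c : K, c ≠ 0 → v (C c) = 1) (hvw : ∀ φ, v (MvPolynomial.map j φ) = w φ)
    {f : MvPolynomial (Fin r) K} {φ : MvPolynomial (Fin r) k} {κ : K} (hf : Lead w j f φ κ) :
    v f = w φ := by
  obtain ⟨hφ, hκ, hf⟩ := hf
  have hwφ : 0 < w φ := zero_lt_iff.2 fun h => hφ (h0 _ h)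
  have key : ∀ x ∈ low w j (w φ), v x < w φ := by
    intro x hx
    induction hx using Submodule.span_induction with
    | mem x hx =>
      obtain ⟨χ, hχ, rfl⟩ := hx
      rw [hvw]
      exact hχ
    | zero => rw [map_zero]; exact hwφ
    | add x z _ _ hx hz => exact v.map_add_lt hx hz
    | smul c x _ hx =>
      rw [← C_mul', map_mul]
      by_cases hc : c = 0
      · rw [hc, C_0, map_zero, zero_mul]
        exact hwφ
      · rw [hv c hc, one_mul]
        exact hx
  have h1 := key _ hf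
  have h2 : v (C κ * MvPolynomial.map j φ) = w φ := by
    rw [map_mul, hv κ hκ, one_mul, hvw]
  have h3 : f = (f - C κ * MvPolynomial.map j φ) + C κ * MvPolynomial.map j φ := by ring
  rw [h3, v.map_add_eq_of_lt_right (by rw [h2]; exact h1), h2]

/-- Coefficientwise application of a function. -/
noncomputable def coefMap {A : Type*} [Field A] (π : A → k) (f : MvPolynomial (Fin r) A) :
    MvPolynomial (Fin r) k := ∑ m ∈ f.support, monomial m (π (f.coeff m))

omit h0 in
theorem coeff_coefMap {A : Type*} [Field A] (π : A → k) (hπ : π 0 = 0)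
    (f : MvPolynomial (Fin r) A) (m : Fin r →₀ ℕ) : (coefMap π f).coeff m = π (f.coeff m) := by
  classical
  rw [coefMap, coeff_sum]
  simp only [coeff_monomial]
  rw [Finset.sum_ite_eq']
  split_ifs with h
  · rfl
  · rw [notMem_support_iff.1 h, hπ]

omit h0 in
/-- A polynomial over `k` in the span of polynomials with smaller values has a smaller value. -/
theorem lt_of_mem_low {A : Type*} [Field A] {a : k →+* A} {γ : Γ₀} (hγ : γ ≠ 0)
    {φ : MvPolynomial (Fin r) k} (hφ : MvPolynomial.map a φ ∈ low w a γ)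
    (hC : ∀ c : k, c ≠ 0 → w (C c) = 1) : w φ < γ := by
  let alg : Algebra k A := a.toAlgebra
  obtain ⟨π, hπ⟩ := LinearMap.exists_leftInverse_of_injective (Algebra.linearMap k A)
    (LinearMap.ker_eq_bot.2 (algebraMap k A).injective)
  have hπ1 : ∀ c : k, π (a c) = c := fun c => LinearMap.congr_fun hπ c
  have hπm : ∀ (c : A) (d : k), π (c * a d) = d * π c := by
    intro c d
    have : c * a d = d • c := by
      rw [Algebra.smul_def, mul_comm]
      rfl
    rw [this, map_smul, smul_eq_mul]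
  have hπ0 : π 0 = 0 := map_zero π
  have key : ∀ x ∈ low w a γ, ∀ c : A, w (coefMap π (C c * x)) < γ := by
    intro x hx
    induction hx using Submodule.span_induction with
    | mem x hx =>
      obtain ⟨χ, hχ, rfl⟩ := hx
      intro c
      have h1 : coefMap π (C c * MvPolynomial.map a χ) = C (π c) * χ := by
        ext m
        rw [coeff_coefMap π hπ0, coeff_C_mul, coeff_map, hπm, coeff_C_mul, mul_comm]
      rw [h1, map_mul]
      by_cases hc : π c = 0
      · rw [hc, C_0, map_zero, zero_mul]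
        exact zero_lt_iff.2 hγ
      · rw [hC _ hc, one_mul]
        exact hχ
    | zero =>
      intro c
      have h1 : coefMap π (C c * (0 : MvPolynomial (Fin r) A)) = 0 := by
        ext m
        rw [coeff_coefMap π hπ0, mul_zero, coeff_zero, coeff_zero, hπ0]
      rw [h1, map_zero]
      exact zero_lt_iff.2 hγ
    | add x z _ _ hx hz =>
      intro c
      have h1 : coefMap π (C c * (x + z)) = coefMap π (C c * x) + coefMap π (C c * z) := by
        ext m
        rw [coeff_add, coeff_coefMap π hπ0, coeff_coefMap π hπ0, coeff_coefMap π hπ0, mul_add,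
          coeff_add, map_add]
      rw [h1]
      exact w.map_add_lt (hx c) (hz c)
    | smul d x _ hx =>
      intro c
      rw [← C_mul', ← mul_assoc, ← C_mul]
      exact hx _
  have h1 := key _ hφ 1
  have h2 : coefMap π (C 1 * MvPolynomial.map a φ) = φ := by
    ext m
    rw [coeff_coefMap π hπ0, C_1, one_mul, coeff_map, hπ1]
  rwa [h2] at h1

/-- Polynomials with leading terms of independent values are algebraically independent. -/
theorem algInd_of_lead {A : Type*} [Field A] {a : k →+* A} (hC : ∀ c : k, c ≠ 0 → w (C c) = 1)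
    {m : ℕ} {P : Fin m → MvPolynomial (Fin r) A} {Φ : Fin m → MvPolynomial (Fin r) k} {κ : Fin m → A}
    (hP : ∀ i, Lead w a (P i) (Φ i) (κ i))
    (hind : ∀ n : Fin m → ℤ, ∏ i, w (Φ i) ^ n i = 1 → n = 0) : AlgebraicIndependent A P := by
  classical
  rw [algebraicIndependent_iff]
  intro G hG
  by_contra hne
  have hwΦ : ∀ i, w (Φ i) ≠ 0 := fun i h => (hP i).1 (h0 _ h)
  have hmon : ∀ α : Fin m →₀ ℕ, Lead w a (∏ i, P i ^ α i) (∏ i, Φ i ^ α i) (∏ i, κ i ^ α i) :=
    fun α => Lead.prod h0 _ fun i _ => (hP i).pow h0 _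
  have hval : ∀ α : Fin m →₀ ℕ, w (∏ i, Φ i ^ α i) = ∏ i, w (Φ i) ^ α i := by
    intro α
    rw [map_prod]
    simp only [map_pow]
  have hinj : ∀ α β : Fin m →₀ ℕ, w (∏ i, Φ i ^ α i) = w (∏ i, Φ i ^ β i) → α = β := by
    intro α β h
    rw [hval, hval] at h
    have h1 : ∏ i, w (Φ i) ^ ((α i : ℤ) - (β i : ℤ)) = 1 := by
      have h2 : ∀ i, w (Φ i) ^ ((α i : ℤ) - (β i : ℤ)) = w (Φ i) ^ α i / w (Φ i) ^ β i := by
        intro i
        rw [zpow_sub₀ (hwΦ i), zpow_natCast, zpow_natCast]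
      rw [Finset.prod_congr rfl fun i _ => h2 i, Finset.prod_div_distrib, h, div_self]
      exact Finset.prod_ne_zero_iff.2 fun i _ => pow_ne_zero _ (hwΦ i)
    have h3 := hind _ h1
    ext i
    have h4 := congrFun h3 i
    simp only [Pi.zero_apply] at h4
    omega
  have hsupp : G.support.Nonempty := support_nonempty.2 hne
  obtain ⟨α0, hα0, hmax⟩ := Finset.exists_max_image G.support (fun α => w (∏ i, Φ i ^ α i)) hsupp
  have hlt : ∀ α ∈ G.support.erase α0, w (∏ i, Φ i ^ α i) < w (∏ i, Φ i ^ α0 i) := by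
    intro α hα
    refine lt_of_le_of_ne (hmax α (Finset.mem_of_mem_erase hα)) fun h => ?_
    exact Finset.ne_of_mem_erase hα (hinj _ _ h)
  have hexp : ∑ α ∈ G.support, C (G.coeff α) * ∏ i, P i ^ α i = 0 := by
    rw [← hG, aeval_def, eval₂_eq']
    rfl
  have hw0 : w (∏ i, Φ i ^ α0 i) ≠ 0 := fun h => (hmon α0).1 (h0 _ h)
  have hmono : ∀ {γ δ : Γ₀}, γ ≤ δ → low w a γ ≤ low w a δ := by
    intro γ δ h
    apply Submodule.span_mono
    rintro _ ⟨χ, hχ, rfl⟩
    exact ⟨χ, hχ.trans_le h, rfl⟩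
  have hmem : ∀ α ∈ G.support.erase α0, C (G.coeff α) * ∏ i, P i ^ α i ∈
      low w a (w (∏ i, Φ i ^ α0 i)) := by
    intro α hα
    apply C_mul_mem_low
    have h1 := (hmon α).2.2
    have h2 : ∏ i, P i ^ α i = (∏ i, P i ^ α i - C (∏ i, κ i ^ α i) *
        MvPolynomial.map a (∏ i, Φ i ^ α i)) + C (∏ i, κ i ^ α i) *
        MvPolynomial.map a (∏ i, Φ i ^ α i) := by ring
    rw [h2]
    refine Submodule.add_mem _ (hmono (hlt α hα).le h1) (C_mul_mem_low (Submodule.subset_span ?_) _)
    exact ⟨_, hlt α hα, rfl⟩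
  have h5 : C (G.coeff α0) * ∏ i, P i ^ α0 i ∈ low w a (w (∏ i, Φ i ^ α0 i)) := by
    rw [← Finset.add_sum_erase _ _ hα0] at hexp
    rw [eq_neg_of_add_eq_zero_left hexp]
    exact Submodule.neg_mem _ (Submodule.sum_mem _ hmem)
  have hc0 : G.coeff α0 ≠ 0 := mem_support_iff.1 hα0
  have h6 : C (G.coeff α0)⁻¹ * (C (G.coeff α0) * ∏ i, P i ^ α0 i) = ∏ i, P i ^ α0 i := by
    rw [← mul_assoc, ← C_mul, inv_mul_cancel₀ hc0, C_1, one_mul]
  have h7 : ∏ i, P i ^ α0 i ∈ low w a (w (∏ i, Φ i ^ α0 i)) := by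
    rw [← h6]
    exact C_mul_mem_low h5 _
  have h8 : C (∏ i, κ i ^ α0 i) * MvPolynomial.map a (∏ i, Φ i ^ α0 i) ∈
      low w a (w (∏ i, Φ i ^ α0 i)) := by
    have h9 := Submodule.sub_mem _ h7 (hmon α0).2.2
    rwa [sub_sub_cancel] at h9
  have hκ0 := (hmon α0).2.1
  have h10 : MvPolynomial.map a (∏ i, Φ i ^ α0 i) ∈ low w a (w (∏ i, Φ i ^ α0 i)) := by
    have h11 := C_mul_mem_low h8 (∏ i, κ i ^ α0 i)⁻¹
    rwa [← mul_assoc, ← C_mul, inv_mul_cancel₀ hκ0, C_1, one_mul] at h11
  exact lt_irrefl _ (lt_of_mem_low hw0 h10 hC)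

end Lead

/-- Transport of algebraic independence of products. -/
theorem transport {r m : ℕ} {B : Type*} [Fintype B] {Γ₀ : Type*} [LinearOrderedCommGroupWithZero Γ₀]
    {k K K' : Type*} [Field k] [Field K] [Field K'] (j0 : k →+* K) (θ0 : k →+* K')
    (v : Valuation (MvPolynomial (Fin r) K) Γ₀) (hv0 : ∀ f, v f = 0 → f = 0)
    (hvC : ∀ c : K, c ≠ 0 → v (C c) = 1)
    (hR : ∀ φ ψ : MvPolynomial (Fin r) k, ψ ≠ 0 → v (map j0 φ) = v (map j0 ψ) →
      ∃ c : k, v (map j0 (φ - C c * ψ)) < v (map j0 ψ))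
    (L : B → Type*) [∀ b, Field (L b)] (i : ∀ b, k →+* L b) (j : ∀ b, L b →+* K)
    (θ : ∀ b, L b →+* K') (hj : ∀ b, (j b).comp (i b) = j0) (hθ : ∀ b, (θ b).comp (i b) = θ0)
    (f : ∀ b, MvPolynomial (Fin r) (L b)) (hf : ∀ b, f b ≠ 0) (e : Fin m → B → ℕ)
    (hind : ∀ n : Fin m → ℤ, ∏ a, (∏ b, v (map (j b) (f b)) ^ e a b) ^ n a = 1 → n = 0) :
    AlgebraicIndependent K' fun a => ∏ b, map (θ b) (f b) ^ e a b := by
  classical
  let w : Valuation (MvPolynomial (Fin r) k) Γ₀ := v.comap (map j0)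
  have hw : ∀ φ, w φ = v (map j0 φ) := fun _ => rfl
  have h0 : ∀ φ, w φ = 0 → φ = 0 := by
    intro φ h
    have h1 := hv0 _ h
    exact (map_injective j0 j0.injective) (h1.trans (map_zero _).symm)
  have hC : ∀ c : k, c ≠ 0 → w (C c) = 1 := by
    intro c hc
    rw [hw, map_C]
    exact hvC _ ((map_ne_zero j0).2 hc)
  choose φ κ hlead using fun b => exists_lead' h0 (w := w) hR (i b) (hf b)
  have hlK : ∀ b, Lead w j0 (map (j b) (f b)) (φ b) (j b (κ b)) := by
    intro b
    have h1 := (hlead b).map (j b)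
    rwa [hj b] at h1
  have hlK' : ∀ b, Lead w θ0 (map (θ b) (f b)) (φ b) (θ b (κ b)) := by
    intro b
    have h1 := (hlead b).map (θ b)
    rwa [hθ b] at h1
  have hval : ∀ b, v (map (j b) (f b)) = w (φ b) := fun b =>
    (hlK b).value h0 v hvC fun _ => rfl
  refine algInd_of_lead h0 hC (Φ := fun a => ∏ b, φ b ^ e a b)
    (κ := fun a => ∏ b, (θ b (κ b)) ^ e a b)
    (fun a => Lead.prod h0 _ fun b _ => (hlK' b).pow h0 _) ?_
  intro n hn
  apply hind n
  rw [← hn]
  refine Finset.prod_congr rfl fun a _ => ?_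
  congr 1
  rw [map_prod]
  refine Finset.prod_congr rfl fun b _ => ?_
  rw [map_pow, hval]

end Pool.Agent.Helper62.VT
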