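import Mathlib

/-!
# Places

A valuation subring of an algebraically closed field dominating a given prime, and the fields on
which the place is an embedding.
-/

namespace Pool.Agent.Helper62.VT

/-- Existence of a valuation ring dominating a prime ideal. -/
theorem exists_place {R K : Type*} [CommRing R] [Field K] [Algebra R K]
    (hinj : Function.Injective (algebraMap R K)) (p : Ideal R) [p.IsPrime] :
    ∃ V : ValuationSubring K, ∃ hV : ∀ x : R, algebraMap R K x ∈ V,
      ∀ x : R, x ∈ p ↔ ¬ IsUnit (⟨algebraMap R K x, hV x⟩ : V) := by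
  have hunit : ∀ y : p.primeCompl, IsUnit (algebraMap R K y) := by
    intro y
    rw [isUnit_iff_ne_zero]
    intro h
    apply y.2
    rw [hinj (h.trans (map_zero _).symm)]
    exact p.zero_mem
  let f : Localization.AtPrime p →+* K := IsLocalization.lift (M := p.primeCompl) hunit
  have hf : ∀ x : R, f (algebraMap R _ x) = algebraMap R K x := fun x =>
    IsLocalization.lift_eq hunit x
  obtain ⟨V, h, hloc⟩ := IsLocalRing.exists_factor_valuationRing f
  have hV : ∀ x : R, algebraMap R K x ∈ V := by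
    intro x
    rw [← hf]
    exact h _
  refine ⟨V, hV, fun x => ?_⟩
  have h1 : (⟨algebraMap R K x, hV x⟩ : V) = f.codRestrict V.toSubring h (algebraMap R _ x) := by
    apply Subtype.ext
    exact (hf x).symm
  rw [h1]
  have h2 : IsUnit (f.codRestrict V.toSubring h (algebraMap R _ x)) ↔
      IsUnit (algebraMap R (Localization.AtPrime p) x) :=
    ⟨fun hu => hloc.map_nonunit _ hu, fun hu => hu.map _⟩
  rw [h2, IsLocalization.AtPrime.isUnit_to_map_iff (Localization.AtPrime p) p x]
  simp [Ideal.primeCompl]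

variable {R : Type} [CommRing R] [IsDomain R] [Algebra ℂ R]

/-- The algebraic closure of the fraction field. -/
abbrev Kb (R : Type) [CommRing R] [IsDomain R] := AlgebraicClosure (FractionRing R)

omit [Algebra ℂ R] in
theorem inj_Kb : Function.Injective (algebraMap R (Kb R)) := by
  rw [IsScalarTower.algebraMap_eq R (FractionRing R) (Kb R), RingHom.coe_comp]
  exact (algebraMap (FractionRing R) (Kb R)).injective.comp (IsFractionRing.injective _ _)

/-- The field generated by a set of elements of `R`. -/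
noncomputable def gf (c : Set R) : IntermediateField ℂ (Kb R) :=
  IntermediateField.adjoin ℂ (algebraMap R (Kb R) '' c)

/-- The relative algebraic closure of the field generated by a set of elements of `R`. -/
noncomputable def cl (c : Set R) : Subfield (Kb R) :=
  (algebraicClosure (gf c) (Kb R)).toSubfield

instance isAlgClosed_cl (c : Set R) : IsAlgClosed (cl c) := by
  have h : IsAlgClosed (algebraicClosure (gf c) (Kb R)) :=
    (algebraicClosure.isAlgClosure (F := gf c) (E := Kb R)).isAlgClosed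
  exact h

theorem mem_cl {c : Set R} {y : Kb R} : y ∈ cl c ↔ IsIntegral (gf c) y := Iff.rfl

theorem cl_mono {c d : Set R} (h : c ⊆ d) : cl c ≤ cl d := by
  intro y hy
  rw [mem_cl] at hy ⊢
  have h1 : gf c ≤ gf d := IntermediateField.adjoin.mono _ _ _ (Set.image_mono h)
  obtain ⟨q, hq, hqy⟩ := hy
  refine ⟨q.map (IntermediateField.inclusion h1).toRingHom, hq.map _, ?_⟩
  rw [Polynomial.eval₂_map]
  exact hqy

theorem gf_le_cl {c : Set R} {y : Kb R} (hy : y ∈ gf c) : y ∈ cl c := by
  rw [mem_cl]
  exact isIntegral_algebraMap (x := (⟨y, hy⟩ : gf c))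

theorem adjoin_mem_cl {c : Set R} {x : R} (hx : x ∈ Algebra.adjoin ℂ c) :
    algebraMap R (Kb R) x ∈ cl c := by
  apply gf_le_cl
  have h1 : algebraMap R (Kb R) x ∈ (Algebra.adjoin ℂ c).map (IsScalarTower.toAlgHom ℂ R (Kb R)) :=
    ⟨x, hx, rfl⟩
  rw [AlgHom.map_adjoin] at h1
  exact IntermediateField.algebra_adjoin_le_adjoin _ _ h1

/-- The place is defined on the closure of every set on which it is injective. -/
theorem cl_le {V : ValuationSubring (Kb R)} (hV : ∀ x : R, algebraMap R (Kb R) x ∈ V) {p : Ideal R}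
    (hp : ∀ x : R, x ∈ p ↔ ¬ IsUnit (⟨algebraMap R (Kb R) x, hV x⟩ : V)) {c : Set R}
    (hc : ∀ x ∈ Algebra.adjoin ℂ c, x ∈ p → x = 0) : (cl c).toSubring ≤ V.toSubring := by
  have hadj : ∀ y ∈ Algebra.adjoin ℂ (algebraMap R (Kb R) '' c),
      ∃ x ∈ Algebra.adjoin ℂ c, algebraMap R (Kb R) x = y := by
    intro y hy
    have h1 : Algebra.adjoin ℂ (algebraMap R (Kb R) '' c) =
        (Algebra.adjoin ℂ c).map (IsScalarTower.toAlgHom ℂ R (Kb R)) := by
      rw [AlgHom.map_adjoin]
      rfl
    rw [h1] at hy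
    obtain ⟨x, hx, rfl⟩ := hy
    exact ⟨x, hx, rfl⟩
  have hgf : ∀ y ∈ gf c, y ∈ V := by
    intro y hy
    obtain ⟨a, ha, b, hb, rfl⟩ := IntermediateField.mem_adjoin_iff_div.1 hy
    obtain ⟨a, ha', rfl⟩ := hadj a ha
    obtain ⟨b, hb', rfl⟩ := hadj b hb
    by_cases hb0 : b = 0
    · rw [hb0, map_zero, div_zero]
      exact V.zero_mem
    have hbp : b ∉ p := fun h => hb0 (hc b hb' h)
    have hbu : IsUnit (⟨algebraMap R (Kb R) b, hV b⟩ : V) := by
      by_contra h
      exact hbp ((hp b).2 h)
    obtain ⟨u, hu⟩ := hbu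
    have h2 : (algebraMap R (Kb R) b)⁻¹ = ((u⁻¹ : Vˣ) : V) := by
      rw [inv_eq_iff_eq_inv, eq_comm]
      apply inv_eq_of_mul_eq_one_left
      have h3 : ((u : V) : Kb R) * (((u⁻¹ : Vˣ) : V) : Kb R) = 1 := by
        rw [← MulMemClass.coe_mul, Units.mul_inv]
        rfl
      rw [hu] at h3
      exact h3
    rw [div_eq_mul_inv, h2]
    exact V.mul_mem _ _ (hV a) (SetLike.coe_mem _)
  intro y hy
  have hy' : IsIntegral (gf c) y := hy
  obtain ⟨q, hq, hqy⟩ := hy'
  let i : gf c →+* V :=
    { toFun := fun x => ⟨x, hgf x x.2⟩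
      map_one' := rfl
      map_mul' := fun _ _ => rfl
      map_zero' := rfl
      map_add' := fun _ _ => rfl }
  have h1 : IsIntegral V y := by
    refine ⟨q.map i, hq.map _, ?_⟩
    rw [Polynomial.eval₂_map]
    exact hqy
  obtain ⟨z, rfl⟩ := (IsIntegrallyClosed.isIntegral_iff (R := V) (K := Kb R)).1 h1
  exact z.2

end Pool.Agent.Helper62.VT
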