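import Mathlib
import Pool.Agent.Helper62.VT.Lead
import Pool.Agent.Helper62.VT.Place
import Pool.Agent.Helper62.VT.Jac
import Pool.Agent.Helper41.VT.V1
import Pool.Agent.Helper12.VT.V2
import Pool.Agent.Helper12.VT.V3

/-!
# Locally faithful specialisations keep algebraic independence of products
-/

namespace Pool.Agent.Helper62.VT

open MvPolynomial

/-- Lifting a polynomial to a subfield containing its coefficients. -/
theorem exists_lift {σ : Type*} {K : Type*} [Field K] (L : Subfield K) (f : MvPolynomial σ K)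
    (hf : ∀ m, f.coeff m ∈ L) : ∃ g : MvPolynomial σ L, map L.subtype g = f := by
  classical
  refine ⟨∑ m ∈ f.support, monomial m (⟨f.coeff m, hf m⟩ : L), ?_⟩
  rw [map_sum]
  conv_rhs => rw [f.as_sum]
  refine Finset.sum_congr rfl fun m _ => ?_
  rw [map_monomial]
  rfl

theorem map_aeval_eq {r : ℕ} {R K : Type*} [CommRing R] [Algebra ℂ R] [Field K] (ρ : R →+* K)
    (P : Fin r → MvPolynomial (Fin r) R) (G : MvPolynomial (Fin r) ℂ) :
    map ρ (aeval P G) = aeval (fun i => map ρ (P i)) (map (ρ.comp (algebraMap ℂ R)) G) := by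
  induction G using MvPolynomial.induction_on with
  | C a =>
    rw [map_C, aeval_C, aeval_C]
    change map ρ (C (algebraMap ℂ R a)) = _
    rw [map_C]
    rfl
  | add p q hp hq => rw [map_add, map_add, hp, hq, map_add, map_add]
  | mul_X p i hp => rw [map_mul, map_mul, hp, map_mul, map_mul, aeval_X, map_X, aeval_X]

/-- A valuation with independent values on the products, and factors with independent values. -/
theorem exists_val_data {r : ℕ} {K : Type} [Field K] [CharZero K] {B : Type} [Fintype B]
    (g : B → MvPolynomial (Fin r) K) (hg0 : ∀ b, g b ≠ 0) (e : Fin r → B → ℕ)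
    (hJ : (Matrix.of fun i j => pderiv j (∏ b, g b ^ e i b)).det ≠ 0) :
    ∃ (Γ₀ : Type) (_ : LinearOrderedCommGroupWithZero Γ₀) (v : Valuation (MvPolynomial (Fin r) K) Γ₀),
      (∀ x, v x = 0 → x = 0) ∧ (∀ a : K, a ≠ 0 → v (C a) = 1) ∧
      (∀ n : Fin r → ℤ, ∏ i, (∏ b, v (g b) ^ e i b) ^ n i = 1 → n = 0) ∧
      ∃ t : Fin r → B, ∀ n : Fin r → ℤ, ∏ i, v (g (t i)) ^ n i = 1 → n = 0 := by
  have hind : AlgebraicIndependent K fun i => ∏ b, g b ^ e i b := algInd_of_jac _ hJ
  have hiF : Function.Injective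
      (algebraMap (MvPolynomial (Fin r) K) (FractionRing (MvPolynomial (Fin r) K))) :=
    IsFractionRing.injective _ _
  have hindF : AlgebraicIndependent K fun i =>
      algebraMap (MvPolynomial (Fin r) K) (FractionRing (MvPolynomial (Fin r) K))
        (∏ b, g b ^ e i b) :=
    hind.map' (f := IsScalarTower.toAlgHom K (MvPolynomial (Fin r) K)
      (FractionRing (MvPolynomial (Fin r) K))) hiF
  obtain ⟨Γ₀, _, v0, hv0C, hv0ind⟩ := Pool.Agent.Helper41.VT.exists_valuation K _ _ hindF
  refine ⟨Γ₀, inferInstance, v0.comap (algebraMap _ _), ?_, ?_, ?_, ?_⟩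
  · intro x hx
    rw [Valuation.comap_apply, Valuation.zero_iff] at hx
    exact hiF (hx.trans (map_zero _).symm)
  · intro a ha
    exact hv0C a ha
  · intro n hn
    apply hv0ind n
    rw [← hn]
    refine Finset.prod_congr rfl fun i _ => ?_
    rw [map_prod, map_prod]
    congr 1
    refine Finset.prod_congr rfl fun b _ => ?_
    rw [map_pow, map_pow, Valuation.comap_apply]
  · apply Pool.Agent.Helper12.VT.select (fun b => (v0.comap (algebraMap (MvPolynomial (Fin r) K)
      (FractionRing (MvPolynomial (Fin r) K)))) (g b)) ?_ e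
    · intro n hn
      apply hv0ind n
      rw [← hn]
      refine Finset.prod_congr rfl fun i _ => ?_
      rw [map_prod, map_prod]
      congr 1
      refine Finset.prod_congr rfl fun b _ => ?_
      rw [map_pow, map_pow, Valuation.comap_apply]
    · intro b hb
      rw [Valuation.comap_apply, Valuation.zero_iff] at hb
      exact hg0 b (hiF (hb.trans (map_zero _).symm))

/-- The core of the argument, for a place given on a subring. -/
theorem ST_core {r : ℕ} {K K'' : Type} [Field K] [CharZero K] [Field K''] (O : Subring K)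
    (res : O →+* K'') {B : Type} [Fintype B] [DecidableEq B]
    (g : B → MvPolynomial (Fin r) K) (hg0 : ∀ b, g b ≠ 0) (e : Fin r → B → ℕ)
    (hJ : (Matrix.of fun i j => pderiv j (∏ b, g b ^ e i b)).det ≠ 0)
    (κ : Finset B → Subfield K) (hκalg : ∀ T, IsAlgClosed (κ T))
    (hκmono : ∀ S T : Finset B, S ⊆ T → κ S ≤ κ T)
    (hκO : ∀ T : Finset B, T.card ≤ r + 1 → (κ T).toSubring ≤ O)
    (hκg : ∀ (T : Finset B) (b : B), b ∈ T → ∀ m, (g b).coeff m ∈ κ T)
    (G : B → MvPolynomial (Fin r) K'')
    (hG : ∀ b m (h : (g b).coeff m ∈ O), (G b).coeff m = res ⟨(g b).coeff m, h⟩) :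
    AlgebraicIndependent K'' fun i => ∏ b, G b ^ e i b := by
  obtain ⟨Γ₀, _, v, hv0, hvC, hvind, t, ht⟩ := exists_val_data g hg0 e hJ
  obtain ⟨T, hT⟩ : ∃ T : Finset B, T = Finset.univ.image t := ⟨_, rfl⟩
  have hTcard : T.card ≤ r := by
    rw [hT]
    refine Finset.card_image_le.trans ?_
    simp
  have htT : ∀ i, t i ∈ T := fun i => by
    rw [hT]
    exact Finset.mem_image_of_mem t (Finset.mem_univ i)
  have hkL : ∀ b, κ T ≤ κ (insert b T) := fun b => hκmono _ _ (Finset.subset_insert b T)
  choose fL hfL using fun b => exists_lift (κ (insert b T)) (g b)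
    (hκg _ b (Finset.mem_insert_self b T))
  choose fk hfk using fun i => exists_lift (κ T) (g (t i)) (hκg T (t i) (htT i))
  have hkV : (κ T).toSubring ≤ O := hκO T (hTcard.trans (Nat.le_succ r))
  have hLV : ∀ b, (κ (insert b T)).toSubring ≤ O := fun b =>
    hκO _ ((Finset.card_insert_le b T).trans (Nat.succ_le_succ hTcard))
  have halg : IsAlgClosed (κ T) := hκalg T
  have hR : ∀ φ ψ : MvPolynomial (Fin r) (κ T), ψ ≠ 0 →
      v (map (κ T).subtype φ) = v (map (κ T).subtype ψ) →
      ∃ a : κ T, v (map (κ T).subtype (φ - C a * ψ)) < v (map (κ T).subtype ψ) := by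
    intro φ ψ hψ hφψ
    refine Pool.Agent.Helper12.VT.residue_alg (v.comap (map (κ T).subtype)) ?_ ?_ fk
      (fun i h => hg0 (t i) (by rw [← hfk i, h, map_zero])) ?_ φ ψ hψ hφψ
    · intro x hx
      exact map_injective (κ T).subtype (κ T).subtype.injective ((hv0 _ hx).trans (map_zero _).symm)
    · intro a ha
      rw [Valuation.comap_apply, map_C]
      exact hvC _ ((map_ne_zero (κ T).subtype).2 ha)
    · intro n hn
      apply ht n
      rw [← hn]
      refine Finset.prod_congr rfl fun i _ => ?_
      rw [Valuation.comap_apply, hfk]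
  have hfin := transport (B := B) (m := r) (Γ₀ := Γ₀) (k := κ T) (K := K) (K' := K'')
    (κ T).subtype (res.comp (Subring.inclusion hkV)) v
    hv0 hvC hR (fun b => κ (insert b T)) (fun b => Subfield.inclusion (hkL b))
    (fun b => (κ (insert b T)).subtype) (fun b => res.comp (Subring.inclusion (hLV b)))
    (fun b => rfl) (fun b => rfl) fL (fun b h => hg0 b (by rw [← hfL b, h, map_zero])) e
    (by
      intro n hn
      apply hvind n
      rw [← hn]
      refine Finset.prod_congr rfl fun i _ => ?_
      congr 1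
      refine Finset.prod_congr rfl fun b _ => ?_
      rw [hfL])
  have hGb : ∀ b, G b = map (res.comp (Subring.inclusion (hLV b))) (fL b) := by
    intro b
    ext m
    have h1 : (((fL b).coeff m : κ (insert b T)) : K) = (g b).coeff m := by
      have h2 := congrArg (coeff m) (hfL b)
      rw [coeff_map] at h2
      exact h2
    have h3 : (g b).coeff m ∈ O := by
      rw [← h1]
      exact hLV b ((fL b).coeff m).2
    rw [hG b m h3, coeff_map, RingHom.comp_apply]
    congr 1
    apply Subtype.ext
    exact h1.symm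
  have hGe : (fun i => ∏ b, G b ^ e i b) = fun a => ∏ b,
      map (res.comp (Subring.inclusion (hLV b))) (fL b) ^ e a b := by
    funext i
    refine Finset.prod_congr rfl fun b _ => ?_
    rw [hGb]
  rw [hGe]
  exact hfin

instance charZero_Kb {R : Type} [CommRing R] [IsDomain R] [Algebra ℂ R] : CharZero (Kb R) :=
  charZero_of_injective_algebraMap (algebraMap ℂ (Kb R)).injective

/-- A place of the algebraic closure extending a homomorphism with a given prime kernel. -/
theorem exists_place_hom {R : Type} [CommRing R] [IsDomain R] [Algebra ℂ R] (p : Ideal R)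
    [p.IsPrime] : ∃ (O : Subring (Kb R)) (K'' : Type) (_ : Field K'') (res : O →+* K'')
      (hO : ∀ x : R, algebraMap R (Kb R) x ∈ O),
      (∀ x ∈ p, res ⟨algebraMap R (Kb R) x, hO x⟩ = 0) ∧
      ∀ c : Set R, (∀ x ∈ Algebra.adjoin ℂ c, x ∈ p → x = 0) → (cl c).toSubring ≤ O := by
  obtain ⟨V, hV, hVp⟩ := exists_place (R := R) (K := Kb R) inj_Kb p
  refine ⟨V.toSubring, IsLocalRing.ResidueField V, inferInstance, IsLocalRing.residue V, hV, ?_,
    fun c hc => cl_le hV hVp hc⟩
  intro x hx
  exact (IsLocalRing.residue_eq_zero_iff (R := V) _).2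
    ((IsLocalRing.mem_maximalIdeal (R := V) _).2 ((hVp x).1 hx))

theorem ST {r : ℕ} {R : Type} [CommRing R] [IsDomain R] [Algebra ℂ R] {R' : Type} [CommRing R']
    [IsDomain R'] [Algebra ℂ R'] (s : R →ₐ[ℂ] R') {B : Type} [Fintype B] [DecidableEq B]
    (f : B → MvPolynomial (Fin r) R) (hf : ∀ b, f b ≠ 0) (c : B → Set R)
    (hc : ∀ b m, (f b).coeff m ∈ Algebra.adjoin ℂ (c b))
    (hs : ∀ T : Finset B, T.card ≤ r + 1 → ∀ x ∈ Algebra.adjoin ℂ (⋃ b ∈ T, c b), s x = 0 → x = 0)
    (e : Fin r → B → ℕ)
    (hJ : (Matrix.of fun i j => pderiv j (∏ b, f b ^ e i b)).det ≠ 0) :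
    AlgebraicIndependent ℂ fun i => ∏ b, (map (s : R →+* R') (f b)) ^ e i b := by
  classical
  have hmι : Function.Injective
      (map (algebraMap R (Kb R)) : MvPolynomial (Fin r) R →+* MvPolynomial (Fin r) (Kb R)) :=
    map_injective _ inj_Kb
  have hprime : (RingHom.ker (s : R →+* R')).IsPrime := RingHom.ker_isPrime _
  obtain ⟨O, K'', _, res, hO, hres, hcl⟩ := exists_place_hom (RingHom.ker (s : R →+* R'))
  obtain ⟨ρ, hρ⟩ : ∃ ρ : R →+* K'', ∀ x, ρ x = res ⟨algebraMap R (Kb R) x, hO x⟩ :=
    ⟨res.comp ((algebraMap R (Kb R)).codRestrict O hO), fun _ => rfl⟩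
  have hJ' : (Matrix.of fun i j => pderiv j (∏ b, (map (algebraMap R (Kb R)) (f b)) ^ e i b)).det
      ≠ 0 := by
    have h1 : (Matrix.of fun i j => pderiv j (∏ b, (map (algebraMap R (Kb R)) (f b)) ^ e i b)).det =
        map (algebraMap R (Kb R)) (Matrix.of fun i j => pderiv j (∏ b, f b ^ e i b)).det := by
      rw [RingHom.map_det]
      congr 1
      ext1 i j
      rw [Matrix.of_apply, RingHom.mapMatrix_apply, Matrix.map_apply, Matrix.of_apply, ← pderiv_map,
        map_prod (map (algebraMap R (Kb R)))]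
      congr 1
      refine Finset.prod_congr rfl fun b _ => ?_
      exact (map_pow (map (algebraMap R (Kb R))) _ _).symm
    rw [h1]
    exact fun h => hJ (hmι (h.trans (map_zero _).symm))
  have hfin := ST_core O res (fun b => map (algebraMap R (Kb R)) (f b))
    (fun b h => hf b (hmι (h.trans (map_zero _).symm))) e hJ' (fun T => cl (⋃ b ∈ T, c b))
    (fun T => isAlgClosed_cl _)
    (fun S T hST => cl_mono (Set.biUnion_mono (fun x hx => hST hx) fun _ _ => le_rfl))
    (fun T hT => hcl _ fun x hx hxp => hs T hT x hx hxp)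
    (fun T b hb m => by
      rw [coeff_map]
      exact adjoin_mem_cl (Algebra.adjoin_mono (Set.subset_biUnion_of_mem (u := c) hb) (hc b m)))
    (fun b => map ρ (f b))
    (fun b m h => by
      rw [coeff_map, hρ]
      congr 1)
  rw [algebraicIndependent_iff]
  intro G hG
  have h1 : aeval (fun i => ∏ b, (map (s : R →+* R') (f b)) ^ e i b) G =
      map (s : R →+* R') (aeval (fun i => ∏ b, f b ^ e i b) G) := by
    have h2 := MvPolynomial.comp_aeval (fun i => ∏ b, f b ^ e i b) (mapAlgHom (σ := Fin r) s)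
    have h3 := congrArg (fun φ => φ G) h2
    change map (s : R →+* R') (aeval (fun i => ∏ b, f b ^ e i b) G) = _ at h3
    rw [h3]
    congr 2
    funext i
    change _ = map (s : R →+* R') (∏ b, f b ^ e i b)
    rw [map_prod]
    simp only [map_pow]
  rw [h1] at hG
  have h4 : map ρ (aeval (fun i => ∏ b, f b ^ e i b) G) = 0 := by
    ext m
    rw [coeff_map, coeff_zero, hρ]
    apply hres
    have := congrArg (coeff m) hG
    rwa [coeff_map, coeff_zero] at this
  have h5 : map ρ (aeval (fun i => ∏ b, f b ^ e i b) G) =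
      aeval (fun i => ∏ b, map ρ (f b) ^ e i b) (map (ρ.comp (algebraMap ℂ R)) G) := by
    rw [map_aeval_eq]
    congr 2
    funext i
    rw [map_prod (map ρ)]
    refine Finset.prod_congr rfl fun b _ => ?_
    exact map_pow (map ρ) _ _
  rw [h5] at h4
  have h6 : map (ρ.comp (algebraMap ℂ R)) G = 0 :=
    (algebraicIndependent_iff.1 hfin) _ h4
  exact map_injective _ (ρ.comp (algebraMap ℂ R)).injective (h6.trans (map_zero _).symm)

end Pool.Agent.Helper62.VT
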