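import Mathlib
import Pool.Agent.Helper62.VT.ST
import Pool.Agent.Helper28.D4.Hit
import Pool.Agent.Helper28.D4.Norm
import Pool.Agent.Helper28.VT.W1
import Pool.Agent.Helper93.D4.M2

/-!
# From faithful specialisations to hitting sets
-/

namespace Pool.Agent.Helper62.VT

open MvPolynomial

variable {n : ℕ}

/-- The variables `x_{e j}` become the new variables `y_j`, the others go through `ψ`. -/
noncomputable def split {r : ℕ} {R' : Type*} [CommRing R'] [Algebra ℂ R'] (e : Fin r → Fin n)
    (ψ : Fin n → R') : MvPolynomial (Fin n) ℂ →ₐ[ℂ] MvPolynomial (Fin r) R' :=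
  aeval fun l => if h : ∃ j, e j = l then X h.choose else C (ψ l)

section Split

variable {r : ℕ} {R' : Type*} [CommRing R'] [Algebra ℂ R'] {e : Fin r → Fin n}

theorem split_X_mem (he : Function.Injective e) (ψ : Fin n → R') (j : Fin r) :
    split e ψ (X (e j)) = X j := by
  have h : ∃ j', e j' = e j := ⟨j, rfl⟩
  rw [split, aeval_X, dif_pos h]
  congr 1
  exact he h.choose_spec

theorem split_X_not (ψ : Fin n → R') {l : Fin n} (hl : ∀ j, e j ≠ l) :
    split e ψ (X l) = C (ψ l) := by
  rw [split, aeval_X, dif_neg]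
  rintro ⟨j, hj⟩
  exact hl j hj

theorem pderiv_split (he : Function.Injective e) (ψ : Fin n → R') (j : Fin r)
    (f : MvPolynomial (Fin n) ℂ) :
    pderiv j (split e ψ f) = split e ψ (pderiv (e j) f) := by
  classical
  induction f using MvPolynomial.induction_on with
  | C a =>
    rw [pderiv_C, map_zero, ← MvPolynomial.algebraMap_eq, AlgHom.commutes,
      IsScalarTower.algebraMap_apply ℂ R' (MvPolynomial (Fin r) R'), MvPolynomial.algebraMap_eq,
      pderiv_C]
  | add p q hp hq => rw [map_add, map_add, hp, hq, map_add, map_add]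
  | mul_X p l hp =>
    rw [map_mul, Derivation.leibniz, Derivation.leibniz, hp, map_add, smul_eq_mul, smul_eq_mul,
      smul_eq_mul, smul_eq_mul, map_mul, map_mul]
    congr 2
    by_cases hl : ∃ j', e j' = l
    · obtain ⟨j', rfl⟩ := hl
      rw [split_X_mem he, pderiv_X, pderiv_X, Pi.single_apply, Pi.single_apply]
      by_cases hj : j' = j
      · rw [if_pos hj, if_pos (by rw [hj]), map_one]
      · rw [if_neg hj, if_neg (fun h => hj (he h)), map_zero]
    · have hl' : ∀ j', e j' ≠ l := fun j' h => hl ⟨j', h⟩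
      rw [split_X_not _ hl', pderiv_C, pderiv_X_of_ne (hl' j).symm, map_zero]

/-- `split` through a homomorphism of coefficients. -/
theorem map_split {R'' : Type*} [CommRing R''] [Algebra ℂ R''] (he : Function.Injective e)
    (ψ : Fin n → R') (s : R' →ₐ[ℂ] R'') (f : MvPolynomial (Fin n) ℂ) :
    map (s : R' →+* R'') (split e ψ f) = split e (fun l => s (ψ l)) f := by
  have h : (mapAlgHom (σ := Fin r) s).comp (split e ψ) = split e (fun l => s (ψ l)) := by
    apply MvPolynomial.algHom_ext
    intro l
    rw [AlgHom.comp_apply]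
    by_cases hl : ∃ j', e j' = l
    · obtain ⟨j', rfl⟩ := hl
      rw [split_X_mem he, split_X_mem he, mapAlgHom_apply, map_X]
    · have hl' : ∀ j', e j' ≠ l := fun j' h => hl ⟨j', h⟩
      rw [split_X_not _ hl', split_X_not _ hl']
      change map (s : R' →+* R'') (C (ψ l)) = _
      rw [map_C]
      rfl
  exact congrArg (fun φ => φ f) h

end Split

theorem split_injective {r : ℕ} {e : Fin r → Fin n} (he : Function.Injective e) :
    Function.Injective (split e (X : Fin n → MvPolynomial (Fin n) ℂ)) := by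
  have h : ((aeval (R := MvPolynomial (Fin n) ℂ) fun j => (X (e j) : MvPolynomial (Fin n) ℂ)).toRingHom).comp
      (split e (X : Fin n → MvPolynomial (Fin n) ℂ)).toRingHom = RingHom.id _ := by
    apply MvPolynomial.ringHom_ext
    · intro a
      change aeval (R := MvPolynomial (Fin n) ℂ) (fun j => (X (e j) : MvPolynomial (Fin n) ℂ))
        (split e X (C a)) = C a
      rw [← MvPolynomial.algebraMap_eq, AlgHom.commutes,
        IsScalarTower.algebraMap_apply ℂ (MvPolynomial (Fin n) ℂ)
          (MvPolynomial (Fin r) (MvPolynomial (Fin n) ℂ)), AlgHom.commutes]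
      rfl
    · intro l
      change aeval (R := MvPolynomial (Fin n) ℂ) (fun j => (X (e j) : MvPolynomial (Fin n) ℂ))
        (split e X (X l)) = X l
      by_cases hl : ∃ j', e j' = l
      · obtain ⟨j', rfl⟩ := hl
        rw [split_X_mem he, aeval_X]
      · have hl' : ∀ j', e j' ≠ l := fun j' h => hl ⟨j', h⟩
        rw [split_X_not _ hl', aeval_C]
        rfl
  intro a b hab
  have h1 := congrArg (aeval (R := MvPolynomial (Fin n) ℂ)
    fun j => (X (e j) : MvPolynomial (Fin n) ℂ)) hab
  have h2 := RingHom.congr_fun h a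
  have h3 := RingHom.congr_fun h b
  exact h2.symm.trans (h1.trans h3)

/-- Faithfulness on the parameters of `r + 1` factors at a time keeps the products independent. -/
theorem indep_split {r : ℕ} {R' : Type} [CommRing R'] [IsDomain R'] [Algebra ℂ R']
    (s : MvPolynomial (Fin n) ℂ →ₐ[ℂ] R') {e : Fin r → Fin n} (he : Function.Injective e)
    (P : Fin r → MvPolynomial (Fin n) ℂ)
    (hJ : (Matrix.of fun i j => pderiv (e j) (P i)).det ≠ 0) {B : Type} [Fintype B] [DecidableEq B]
    (f : B → MvPolynomial (Fin n) ℂ) (hf : ∀ b, f b ≠ 0) (m : Fin r → B → ℕ)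
    (hP : ∀ i, P i = ∏ b, f b ^ m i b) (c : B → Set (MvPolynomial (Fin n) ℂ))
    (hc : ∀ b k, (split e (X : Fin n → MvPolynomial (Fin n) ℂ) (f b)).coeff k ∈
      Algebra.adjoin ℂ (c b))
    (hs : ∀ T : Finset B, T.card ≤ r + 1 → ∀ x ∈ Algebra.adjoin ℂ (⋃ b ∈ T, c b), s x = 0 → x = 0) :
    AlgebraicIndependent ℂ fun i => split e (fun l => s (X l)) (P i) := by
  have hinj := split_injective (n := n) he
  have h1 := ST s (fun b => split e (X : Fin n → MvPolynomial (Fin n) ℂ) (f b))
    (fun b h => hf b (hinj (h.trans (map_zero _).symm))) c hc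
    hs m (by
      have h2 : (Matrix.of fun i j => pderiv j
          (∏ b, split e (X : Fin n → MvPolynomial (Fin n) ℂ) (f b) ^ m i b)).det =
          split e (X : Fin n → MvPolynomial (Fin n) ℂ)
            (Matrix.of fun i j => pderiv (e j) (P i)).det := by
        rw [AlgHom.map_det]
        congr 1
        ext1 i j
        rw [Matrix.of_apply, AlgHom.mapMatrix_apply, Matrix.map_apply, Matrix.of_apply,
          ← pderiv_split he]
        congr 1
        rw [hP, map_prod]
        simp only [map_pow]
      rw [h2]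
      exact fun h => hJ (hinj (h.trans (map_zero _).symm)))
  have h3 : (fun i => split e (fun l => s (X l)) (P i)) =
      fun i => ∏ b, (map (s : MvPolynomial (Fin n) ℂ →+* R')
        (split e (X : Fin n → MvPolynomial (Fin n) ℂ) (f b))) ^ m i b := by
    funext i
    rw [hP, map_prod]
    refine Finset.prod_congr rfl fun b _ => ?_
    rw [map_pow, map_split he X s (f b)]
  rw [h3]
  exact h1

/-- A nonzero polynomial in the products stays nonzero. -/
theorem split_ne_zero {r m : ℕ} {R' : Type} [CommRing R'] [IsDomain R'] [Algebra ℂ R']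
    {P : Fin m → MvPolynomial (Fin n) ℂ} {e : Fin r → Fin n} {ψ : Fin n → R'} {t : Fin r → Fin m}
    (hind : AlgebraicIndependent ℂ fun i => split e ψ (P (t i))) {g h : MvPolynomial (Fin m) ℂ}
    {b : MvPolynomial (Fin r) ℂ} (hb : b ≠ 0)
    (hbh : aeval (fun i => P (t i)) b = aeval P g * aeval P h) : split e ψ (aeval P g) ≠ 0 := by
  have h1 : aeval (fun i => split e ψ (P (t i))) b ≠ 0 := by
    intro h0
    exact hb (hind (h0.trans (map_zero _).symm))
  have h2 : aeval (fun i => split e ψ (P (t i))) b = split e ψ (aeval (fun i => P (t i)) b) := by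
    have h3 := MvPolynomial.comp_aeval (fun i => P (t i)) (split e ψ)
    rw [← h3]
    rfl
  rw [h2, hbh, map_mul] at h1
  exact left_ne_zero_of_mul h1

/-! ### The points -/

open Pool.Agent.Helper28.D4 (G)

/-- The specialisation of the remaining variables: a curve plus a sum of `M` vectors. -/
noncomputable def spec (n M : ℕ) (ε : Fin n → Polynomial ℤ) :
    MvPolynomial (Fin n) ℂ →ₐ[ℂ] MvPolynomial (Option (Fin M ⊕ Fin M)) ℂ :=
  aeval fun l => Polynomial.aeval (X none) (ε l) +
    G n M (fun j => X (some (Sum.inl j))) (fun j => X (some (Sum.inr j))) l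

/-- The point with parameters `t, z, w`. -/
noncomputable def cpt (n K : ℕ) (ε : Fin n → Polynomial ℤ) (t : ℂ) (z w : Fin K → ℂ) (l : Fin n) :
    ℂ := Polynomial.aeval t (ε l) + G n K z w l

theorem eval_spec {M : ℕ} (ε : Fin n → Polynomial ℤ) (π : Option (Fin M ⊕ Fin M) → ℂ) (l : Fin n) :
    eval π (spec n M ε (X l)) = cpt n M ε (π none) (fun j => π (some (Sum.inl j)))
      (fun j => π (some (Sum.inr j))) l := by
  rw [spec, aeval_X, map_add, cpt, Pool.Agent.Helper28.D4.map_G]
  simp only [eval_X]
  congr 1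
  have h := Polynomial.hom_eval₂ (ε l) (algebraMap ℤ (MvPolynomial (Option (Fin M ⊕ Fin M)) ℂ))
    (eval π) (X none)
  rw [Polynomial.aeval_def, h, Polynomial.aeval_def, eval_X]
  congr 1
  exact RingHom.ext_int _ _

/-- Nonvanishing after splitting gives a point of the family with `r + M` vectors. -/
theorem exists_cpt {r M : ℕ} {e : Fin r → Fin n} (he : Function.Injective e)
    (ε : Fin n → Polynomial ℤ) (f : MvPolynomial (Fin n) ℂ)
    (h : split e (fun l => spec n M ε (X l)) f ≠ 0) :
    ∃ (t : ℂ) (z w : Fin (r + M) → ℂ), eval (cpt n (r + M) ε t z w) f ≠ 0 := by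
  classical
  obtain ⟨k, hk⟩ : ∃ k, (split e (fun l => spec n M ε (X l)) f).coeff k ≠ 0 := by
    by_contra hcon
    push Not at hcon
    exact h (MvPolynomial.ext _ _ fun k => by rw [hcon k, coeff_zero])
  obtain ⟨π, hπ⟩ := Pool.Agent.Helper28.D4.exists_eval_ne_zero _ hk
  have h1 : map (eval π) (split e (fun l => spec n M ε (X l)) f) ≠ 0 := by
    intro h0
    apply hπ
    have := congrArg (coeff k) h0
    rwa [coeff_map, coeff_zero] at this
  obtain ⟨y, hy⟩ := Pool.Agent.Helper28.D4.exists_eval_ne_zero _ h1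
  set z := fun j => π (some (Sum.inl j)) with hz
  set w := fun j => π (some (Sum.inr j)) with hw
  have h2 : ∀ q : MvPolynomial (Fin n) ℂ,
      eval y (map (eval π) (split e (fun l => spec n M ε (X l)) q)) =
      eval (fun l => if h : ∃ j, e j = l then y h.choose else cpt n M ε (π none) z w l) q := by
    intro q
    have h3 : ((eval y).comp (map (eval π))).comp
        (split e (fun l => spec n M ε (X l)) : MvPolynomial (Fin n) ℂ →+* _) =
        eval (fun l => if h : ∃ j, e j = l then y h.choose else cpt n M ε (π none) z w l) := by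
      apply MvPolynomial.ringHom_ext
      · intro a
        change eval y (map (eval π) (split e (fun l => spec n M ε (X l)) (C a))) = _
        rw [← MvPolynomial.algebraMap_eq, AlgHom.commutes,
          IsScalarTower.algebraMap_apply ℂ (MvPolynomial (Option (Fin M ⊕ Fin M)) ℂ)
            (MvPolynomial (Fin r) (MvPolynomial (Option (Fin M ⊕ Fin M)) ℂ)),
          MvPolynomial.algebraMap_eq, MvPolynomial.algebraMap_eq, MvPolynomial.algebraMap_eq,
          map_C, eval_C, eval_C, eval_C]
      · intro l
        change eval y (map (eval π) (split e (fun l => spec n M ε (X l)) (X l))) = _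
        rw [eval_X]
        by_cases hl : ∃ j, e j = l
        · rw [dif_pos hl, split, aeval_X, dif_pos hl, map_X, eval_X]
        · rw [dif_neg hl, split, aeval_X, dif_neg hl, map_C, eval_C, eval_spec]
    exact RingHom.congr_fun h3 q
  rw [h2] at hy
  -- the parameters
  have hκ := Pool.Agent.Helper28.VT.kap_ne n
  let ζ : Fin r → ℂ := fun j => (y j - cpt n M ε (π none) z w (e j)) /
    ∏ i' ∈ Finset.univ.erase (e j), (((e j : ℕ) : ℂ) - ((i' : ℕ) : ℂ))
  refine ⟨π none, Fin.append ζ z, Fin.append (fun j => ((e j : ℕ) : ℂ)) w, ?_⟩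
  convert hy using 2
  congr 1
  funext l
  have hG : G n (r + M) (Fin.append ζ z) (Fin.append (fun j => ((e j : ℕ) : ℂ)) w) l =
      (∑ j, ζ j * ∏ i' ∈ Finset.univ.erase l, (((e j : ℕ) : ℂ) - ((i' : ℕ) : ℂ))) +
        G n M z w l := by
    rw [G, G, Fin.sum_univ_add]
    simp only [Fin.append_left, Fin.append_right]
  rw [cpt, hG]
  have hzero : ∀ j, e j ≠ l →
      ∏ i' ∈ Finset.univ.erase l, (((e j : ℕ) : ℂ) - ((i' : ℕ) : ℂ)) = 0 := by
    intro j hj
    apply Finset.prod_eq_zero (Finset.mem_erase.2 ⟨hj, Finset.mem_univ (e j)⟩)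
    exact sub_self _
  by_cases hl : ∃ j, e j = l
  · obtain ⟨j, rfl⟩ := hl
    have hex : ∃ j', e j' = e j := ⟨j, rfl⟩
    rw [dif_pos hex, Finset.sum_eq_single j]
    · have h4 : ζ j * ∏ i' ∈ Finset.univ.erase (e j), (((e j : ℕ) : ℂ) - ((i' : ℕ) : ℂ)) =
          y j - cpt n M ε (π none) z w (e j) := by
        apply div_mul_cancel₀
        rw [Finset.prod_ne_zero_iff]
        intro i' hi'
        rw [sub_ne_zero]
        intro h5
        exact (Finset.mem_erase.1 hi').1 (Fin.ext (by exact_mod_cast h5.symm))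
      rw [h4, he hex.choose_spec, cpt]
      ring
    · intro j' _ hj'
      rw [hzero j' (fun h5 => hj' (he h5)), mul_zero]
    · intro h5
      exact absurd (Finset.mem_univ j) h5
  · have hl' : ∀ j', e j' ≠ l := fun j' h => hl ⟨j', h⟩
    rw [dif_neg hl, Finset.sum_eq_zero fun j _ => by rw [hzero j (hl' j), mul_zero], zero_add, cpt]

/-- The integer points with parameters in `{0, ..., b}`. -/
def pts (n K : ℕ) (ε : Fin n → ℤ → ℤ) (b : ℕ) : Finset (Fin n → ℤ) :=
  (Finset.univ : Finset (Fin (b + 1) × (Fin K → Fin (b + 1)) × (Fin K → Fin (b + 1)))).image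
    fun c l => ε l ((c.1 : ℕ) : ℤ) + G n K (fun j => ((c.2.1 j : ℕ) : ℤ))
      (fun j => ((c.2.2 j : ℕ) : ℤ)) l

theorem pts_card (n K : ℕ) (ε : Fin n → ℤ → ℤ) (b : ℕ) :
    (pts n K ε b).card ≤ (b + 1) ^ (2 * K + 1) := by
  refine Finset.card_image_le.trans (le_of_eq ?_)
  rw [Finset.card_univ, Fintype.card_prod, Fintype.card_prod, Fintype.card_fun, Fintype.card_fin,
    Fintype.card_fin]
  ring

/-- From a complex point of the family to an integer point. -/
theorem exists_pts {K D d b : ℕ} (ε : Fin n → Polynomial ℤ) (hD : ∀ l, (ε l).natDegree ≤ D)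
    (f : MvPolynomial (Fin n) ℂ) (hd : f.totalDegree ≤ d) (hb : d * (D + n) ≤ b)
    (h : ∃ (t : ℂ) (z w : Fin K → ℂ), eval (cpt n K ε t z w) f ≠ 0) :
    ∃ a ∈ pts n K (fun l => (ε l).eval) b, eval (fun l => ((a l : ℤ) : ℂ)) f ≠ 0 := by
  classical
  obtain ⟨t, z, w, hne⟩ := h
  have hev : ∀ π : Option (Fin K ⊕ Fin K) → ℂ, eval π (spec n K ε f) =
      eval (cpt n K ε (π none) (fun j => π (some (Sum.inl j))) (fun j => π (some (Sum.inr j)))) f := by
    intro π
    rw [spec, Pool.Agent.Helper28.D4.eval_aeval_comp]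
    congr 2
    funext l
    have := eval_spec ε π l
    rwa [spec, aeval_X] at this
  have hF0 : spec n K ε f ≠ 0 := by
    intro hcon
    apply hne
    have h1 := hev (fun o => o.elim t (Sum.elim z w))
    rw [hcon, map_zero] at h1
    exact h1.symm
  by_contra hcon
  push Not at hcon
  apply hF0
  apply MvPolynomial.eq_zero_of_eval_zero_at_prod_finset (spec n K ε f)
    (fun _ => (Finset.range (b + 1)).image (fun k : ℕ => (k : ℂ)))
  · intro v
    rw [Finset.card_image_of_injective _ Nat.cast_injective, Finset.card_range]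
    have h1 := Pool.Agent.Helper28.D4.degreeOf_aeval_le (fun l => Polynomial.aeval (X none) (ε l) +
      G n K (fun j => (X (some (Sum.inl j)) : MvPolynomial (Option (Fin K ⊕ Fin K)) ℂ))
        (fun j => X (some (Sum.inr j))) l) v (D + n) d (by
        intro l
        refine (degreeOf_add_le v _ _).trans (max_le ?_ ?_)
        · rw [Polynomial.aeval_eq_sum_range]
          refine (degreeOf_sum_le v _ _).trans (Finset.sup_le fun i hi => ?_)
          have hi' : i ≤ D := (Nat.lt_succ_iff.1 (Finset.mem_range.1 hi)).trans (hD l)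
          have h2 : ((ε l).coeff i • (X none : MvPolynomial (Option (Fin K ⊕ Fin K)) ℂ) ^ i) =
              C (((ε l).coeff i : ℤ) : ℂ) * X none ^ i := by
            rw [zsmul_eq_mul, map_intCast]
          rw [h2]
          refine (degreeOf_mul_le v _ _).trans ?_
          rw [degreeOf_C, zero_add]
          refine (degreeOf_pow_le v _ _).trans ?_
          refine (Nat.mul_le_mul_left i (Pool.Agent.Helper28.D4.degreeOf_X_le v none)).trans ?_
          omega
        · exact (Pool.Agent.Helper28.D4.degreeOf_G n K _ _ v l).trans (Nat.le_add_left n D)) f hd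
    rw [spec]
    omega
  · intro x hx
    have h1 : ∀ p, ∃ k : Fin (b + 1), (((k : Fin (b + 1)) : ℕ) : ℂ) = x p := by
      intro p
      obtain ⟨k, hk, hkx⟩ := Finset.mem_image.1 (hx p)
      exact ⟨⟨k, Finset.mem_range.1 hk⟩, hkx⟩
    choose c hc using h1
    rw [hev]
    have h2 := hcon _ (Finset.mem_image.2 ⟨(c none, fun j => c (some (Sum.inl j)),
      fun j => c (some (Sum.inr j))), Finset.mem_univ _, rfl⟩)
    rw [← h2]
    congr 2
    funext l
    rw [cpt, Int.cast_add]
    congr 1
    · have h3 := Polynomial.eval₂_at_intCast (p := ε l) (Int.castRingHom ℂ) ((c none : ℕ) : ℤ)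
      rw [← hc none, Polynomial.aeval_def]
      have h4 : algebraMap ℤ ℂ = Int.castRingHom ℂ := RingHom.ext_int _ _
      rw [h4]
      push_cast at h3
      exact h3
    · have h3 := Pool.Agent.Helper28.D4.map_G (Int.castRingHom ℂ) (n := n)
        (fun j => ((c (some (Sum.inl j)) : ℕ) : ℤ)) (fun j => ((c (some (Sum.inr j)) : ℕ) : ℤ)) l
      simp only [eq_intCast, Int.cast_natCast] at h3
      rw [h3]
      simp only [hc]

end Pool.Agent.Helper62.VT
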