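import Mathlib
import Pool.Agent.Helper62.VT.Gen

/-!
# The general hitting set theorem of the valuation method
-/

namespace Pool.Agent.Helper62.VT

open MvPolynomial
open Pool.Agent.Helper28.D4 (G)

variable {n : ℕ}

theorem pts_mono {K K' : ℕ} (h : K ≤ K') (ε : Fin n → ℤ → ℤ) (b : ℕ) :
    pts n K ε b ⊆ pts n K' ε b := by
  obtain ⟨k, rfl⟩ := Nat.exists_eq_add_of_le h
  intro a ha
  obtain ⟨⟨t, z, w⟩, -, rfl⟩ := Finset.mem_image.1 ha
  refine Finset.mem_image.2 ⟨(t, Fin.append z (fun _ => 0), Fin.append w (fun _ => 0)),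
    Finset.mem_univ _, ?_⟩
  funext l
  simp only [G]
  rw [Fin.sum_univ_add]
  simp only [Fin.append_left, Fin.append_right]
  simp

/-- **The general theorem.** A polynomial in products of factors, no `r + 1` of the products
being algebraically independent, is hit by the explicit points as soon as for every choice of at
most `r` variables the coefficients of the factors lie in subalgebras whose joins `r + 1` at a time
are mapped injectively by the specialisation of the remaining variables. -/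
theorem exists_point {m r M D d b : ℕ} (P : Fin m → MvPolynomial (Fin n) ℂ)
    (hr : ∀ s : Fin (r + 1) → Fin m, ¬ AlgebraicIndependent ℂ fun i => P (s i))
    (g : MvPolynomial (Fin m) ℂ) (h0 : aeval P g ≠ 0) (hd : (aeval P g).totalDegree ≤ d)
    (E : Set (Fin n → Polynomial ℤ)) (hD : ∀ ε ∈ E, ∀ l, (ε l).natDegree ≤ D)
    (hb : d * (D + n) ≤ b)
    (H : ∀ r' ≤ r, ∀ t : Fin r' → Fin m, (∀ i, P (t i) ≠ 0) → ∀ e : Fin r' → Fin n,
      Function.Injective e →
      ∃ (B : Type) (_ : Fintype B) (_ : DecidableEq B) (f : B → MvPolynomial (Fin n) ℂ)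
        (mm : Fin r' → B → ℕ), (∀ b, f b ≠ 0) ∧ (∀ i, P (t i) = ∏ b, f b ^ mm i b) ∧
        ∃ c : B → Set (MvPolynomial (Fin n) ℂ),
          (∀ b k, (split e (X : Fin n → MvPolynomial (Fin n) ℂ) (f b)).coeff k ∈
            Algebra.adjoin ℂ (c b)) ∧
          ∃ ε ∈ E, ∀ T : Finset B, T.card ≤ r' + 1 →
            ∀ x ∈ Algebra.adjoin ℂ (⋃ b ∈ T, c b), spec n M ε x = 0 → x = 0) :
    ∃ ε ∈ E, ∃ a ∈ pts n (r + M) (fun l => (ε l).eval) b,
      eval (fun l => ((a l : ℤ) : ℂ)) (aeval P g) ≠ 0 := by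
  classical
  obtain ⟨r', hr', t, ht, β, h, hβ, hβh⟩ := Pool.Agent.Helper28.D4.norm_trick P hr g h0
  obtain ⟨e, hdet⟩ := Pool.Agent.Helper93.D4.jac_of_algInd (fun i => P (t i)) ht
  have he : Function.Injective e := by
    intro j k hjk
    by_contra hne
    apply hdet
    apply Matrix.det_zero_of_column_eq hne
    intro i
    rw [Matrix.of_apply, Matrix.of_apply, hjk]
  obtain ⟨B, hB1, hB2, f, mm, hf0, hP, c, hc, ε, hε, hs⟩ :=
    H r' hr' t (fun i => ht.ne_zero i) e he
  have h1 := indep_split (spec n M ε) he (fun i => P (t i)) hdet f hf0 mm hP c hc hs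
  have h2 := split_ne_zero h1 hβ hβh
  have h3 := exists_cpt he ε _ h2
  obtain ⟨a, ha, hne⟩ := exists_pts ε (hD ε hε) _ hd hb h3
  exact ⟨ε, hε, a, pts_mono (Nat.add_le_add_right hr' M) _ _ ha, hne⟩

/-! ### Factorisations -/

theorem exists_factorization {r' : ℕ} (P : Fin r' → MvPolynomial (Fin n) ℂ)
    (L : Fin r' → List (MvPolynomial (Fin n) ℂ)) (hL : ∀ i, P i = (L i).prod)
    (h0 : ∀ i, P i ≠ 0) :
    ∃ (B : Type) (_ : Fintype B) (_ : DecidableEq B) (f : B → MvPolynomial (Fin n) ℂ)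
      (mm : Fin r' → B → ℕ), (∀ b, f b ≠ 0) ∧ (∀ b, ∃ i, f b ∈ L i) ∧
      (∀ i, P i = ∏ b, f b ^ mm i b) ∧ Fintype.card B = ∑ i, (L i).length := by
  classical
  refine ⟨Σ i : Fin r', Fin (L i).length, inferInstance, inferInstance,
    fun b => (L b.1).get b.2, fun i b => if b.1 = i then 1 else 0, ?_, ?_, ?_, ?_⟩
  · rintro ⟨i, a⟩ h
    apply h0 i
    rw [hL]
    apply List.prod_eq_zero
    rw [← h]
    exact List.get_mem _ _
  · rintro ⟨i, a⟩
    exact ⟨i, List.get_mem _ _⟩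
  · intro i
    rw [Fintype.prod_sigma, Finset.prod_eq_single i]
    · simp only [if_true, pow_one]
      rw [hL, ← List.prod_ofFn, List.ofFn_get]
    · intro j _ hj
      apply Finset.prod_eq_one
      intro a _
      dsimp only
      rw [if_neg hj, pow_zero]
    · intro h
      exact absurd (Finset.mem_univ i) h
  · rw [Fintype.card_sigma]
    simp only [Fintype.card_fin]

/-! ### Coefficients in a subalgebra -/

section Coef

variable {r : ℕ} {R' : Type*} [CommRing R'] [Algebra ℂ R']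

/-- Polynomials with coefficients in a subalgebra. -/
noncomputable def W (r : ℕ) (S : Subalgebra ℂ R') : Subalgebra ℂ (MvPolynomial (Fin r) R') :=
  (mapAlgHom (σ := Fin r) S.val).range

theorem coeff_mem_of_mem_W {S : Subalgebra ℂ R'} {f : MvPolynomial (Fin r) R'} (hf : f ∈ W r S)
    (k : Fin r →₀ ℕ) : f.coeff k ∈ S := by
  obtain ⟨g, rfl⟩ := hf
  change coeff k (map (S.val : S →+* R') g) ∈ S
  rw [coeff_map]
  exact (coeff k g).2

theorem C_mem_W {S : Subalgebra ℂ R'} {a : R'} (ha : a ∈ S) :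
    (C a : MvPolynomial (Fin r) R') ∈ W r S := by
  refine ⟨C ⟨a, ha⟩, ?_⟩
  change map (S.val : S →+* R') (C ⟨a, ha⟩) = C a
  rw [map_C]
  rfl

theorem X_mem_W (S : Subalgebra ℂ R') (j : Fin r) : (X j : MvPolynomial (Fin r) R') ∈ W r S := by
  refine ⟨X j, ?_⟩
  change map (S.val : S →+* R') (X j) = X j
  rw [map_X]

theorem W_mono {S S' : Subalgebra ℂ R'} (h : S ≤ S') : W r S ≤ W r S' := by
  rintro f ⟨g, rfl⟩
  refine ⟨map (Subalgebra.inclusion h : S →+* S') g, ?_⟩
  change map (S'.val : S' →+* R') (map (Subalgebra.inclusion h : S →+* S') g) =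
    map (S.val : S →+* R') g
  rw [map_map]
  rfl

theorem mem_W_iff {S : Subalgebra ℂ R'} {f : MvPolynomial (Fin r) R'} :
    f ∈ W r S ↔ ∀ k, f.coeff k ∈ S := by
  refine ⟨fun h k => coeff_mem_of_mem_W h k, fun h => ?_⟩
  rw [MvPolynomial.as_sum f]
  apply Subalgebra.sum_mem
  intro k _
  refine ⟨monomial k ⟨coeff k f, h k⟩, ?_⟩
  change map (S.val : S →+* R') (monomial k ⟨coeff k f, h k⟩) = _
  rw [map_monomial]
  rfl

theorem polynomial_aeval_mem {A : Type*} [CommRing A] [Algebra ℂ A] {S : Subalgebra ℂ A} {x : A}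
    (hx : x ∈ S) (q : Polynomial ℂ) : Polynomial.aeval x q ∈ S := by
  have h := Polynomial.aeval_algHom_apply S.val ⟨x, hx⟩ q
  change Polynomial.aeval x q = S.val (Polynomial.aeval ⟨x, hx⟩ q) at h
  rw [h]
  exact (Polynomial.aeval (⟨x, hx⟩ : S) q).2

theorem mvPolynomial_aeval_mem {A : Type*} [CommRing A] [Algebra ℂ A] {S : Subalgebra ℂ A}
    {κ : ℕ} {x : Fin κ → A} (hx : ∀ j, x j ∈ S) (F : MvPolynomial (Fin κ) ℂ) : aeval x F ∈ S := by
  have h : Algebra.adjoin ℂ (Set.range x) ≤ S := Algebra.adjoin_le (by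
    rintro _ ⟨j, rfl⟩
    exact hx j)
  apply h
  rw [Algebra.adjoin_range_eq_range_aeval]
  exact ⟨F, rfl⟩

end Coef

/-- The parameters of a polynomial in polynomials. -/
theorem coeff_split_aeval {r κ : ℕ} {e : Fin r → Fin n} (A : Fin κ → MvPolynomial (Fin n) ℂ)
    (F : MvPolynomial (Fin κ) ℂ) (c : Set (MvPolynomial (Fin n) ℂ))
    (h : ∀ j, split e (X : Fin n → MvPolynomial (Fin n) ℂ) (A j) ∈ W r (Algebra.adjoin ℂ c))
    (k : Fin r →₀ ℕ) :
    (split e (X : Fin n → MvPolynomial (Fin n) ℂ) (aeval A F)).coeff k ∈ Algebra.adjoin ℂ c := by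
  apply coeff_mem_of_mem_W
  have h1 : split e (X : Fin n → MvPolynomial (Fin n) ℂ) (aeval A F) =
      aeval (fun j => split e (X : Fin n → MvPolynomial (Fin n) ℂ) (A j)) F := by
    rw [← MvPolynomial.comp_aeval]
    rfl
  rw [h1]
  exact mvPolynomial_aeval_mem h F

/-- Faithfulness on tuples gives injectivity on the joins of few parameter algebras. -/
theorem faithful_of_tuple {M K t : ℕ} {R' : Type*} [CommRing R'] [Algebra ℂ R']
    (s : MvPolynomial (Fin n) ℂ →ₐ[ℂ] R') {Q : MvPolynomial (Fin n) ℂ → Prop} (hQ0 : Q 0)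
    {B : Type} (γ : B → Fin K → MvPolynomial (Fin n) ℂ) (hγ : ∀ b j, Q (γ b j))
    (hM : t * K ≤ M)
    (hs : ∀ c : Fin M → MvPolynomial (Fin n) ℂ, (∀ j, Q (c j)) → ∀ H : MvPolynomial (Fin M) ℂ,
      aeval c H ≠ 0 → s (aeval c H) ≠ 0) (T : Finset B) (hT : T.card ≤ t) :
    ∀ x ∈ Algebra.adjoin ℂ (⋃ b ∈ T, Set.range (γ b)), s x = 0 → x = 0 := by
  classical
  intro x hx hsx
  have hcard : Fintype.card (T × Fin K) ≤ Fintype.card (Fin M) := by
    rw [Fintype.card_prod, Fintype.card_coe, Fintype.card_fin, Fintype.card_fin]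
    exact (Nat.mul_le_mul_right K hT).trans hM
  obtain ⟨ι⟩ := Function.Embedding.nonempty_of_card_le hcard
  let c : Fin M → MvPolynomial (Fin n) ℂ := Function.extend ι (fun p => γ p.1.1 p.2) 0
  have hc : ∀ j, Q (c j) := by
    intro j
    by_cases h : ∃ p, ι p = j
    · obtain ⟨p, rfl⟩ := h
      change Q (Function.extend ι (fun p : T × Fin K => γ p.1.1 p.2) 0 (ι p))
      rw [ι.injective.extend_apply]
      exact hγ _ _
    · change Q (Function.extend ι (fun p : T × Fin K => γ p.1.1 p.2) 0 j)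
      rw [Function.extend_apply' _ _ _ h]
      exact hQ0
  have hsub : Algebra.adjoin ℂ (⋃ b ∈ T, Set.range (γ b)) ≤ Algebra.adjoin ℂ (Set.range c) := by
    apply Algebra.adjoin_mono
    intro y hy
    simp only [Set.mem_iUnion] at hy
    obtain ⟨b, hb, j, rfl⟩ := hy
    refine ⟨ι (⟨b, hb⟩, j), ?_⟩
    change Function.extend ι (fun p : T × Fin K => γ p.1.1 p.2) 0 (ι (⟨b, hb⟩, j)) = _
    rw [ι.injective.extend_apply]
  have hx' := hsub hx
  rw [Algebra.adjoin_range_eq_range_aeval] at hx'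
  obtain ⟨F, rfl⟩ := hx'
  by_contra hne
  exact hs c hc F hne hsx

end Pool.Agent.Helper62.VT
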