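import Mathlib

/-!
# Read-once formulas and tree functions on the Boolean cube: definitions
-/

namespace Pool.Agent.Helper62.VT

open MvPolynomial

/-- Arithmetic formulas with univariate polynomials at the leaves. -/
inductive RF (n : ℕ) : Type
  | const (c : ℂ) : RF n
  | leaf (l : Fin n) (T : Polynomial ℂ) : RF n
  | add (f g : RF n) : RF n
  | mul (f g : RF n) : RF n

namespace RF

variable {n : ℕ}

/-- The variables of a formula. -/
def vars : RF n → Finset (Fin n)
  | const _ => ∅
  | leaf l _ => {l}
  | add f g => f.vars ∪ g.vars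
  | mul f g => f.vars ∪ g.vars

/-- Read-once formulas: every variable labels at most one leaf. -/
def RO : RF n → Prop
  | const _ => True
  | leaf _ _ => True
  | add f g => f.RO ∧ g.RO ∧ Disjoint f.vars g.vars
  | mul f g => f.RO ∧ g.RO ∧ Disjoint f.vars g.vars

/-- The polynomial computed by a formula. -/
noncomputable def poly : RF n → MvPolynomial (Fin n) ℂ
  | const c => C c
  | leaf l T => Polynomial.aeval (X l) T
  | add f g => f.poly + g.poly
  | mul f g => f.poly * g.poly

/-- The children of the multiplication gates. -/
def mc : RF n → List (RF n)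
  | const _ => []
  | leaf _ _ => []
  | add f g => f.mc ++ g.mc
  | mul f g => f :: g :: (f.mc ++ g.mc)

end RF

/-- Tree functions on the Boolean cube: read-once formulas in which the children of the
multiplication gates vanish nowhere; `S` contains the variables. -/
inductive TF {n : ℕ} : Finset (Fin n) → ((Fin n → Bool) → ℂ) → Prop
  | const (c : ℂ) : TF ∅ (fun _ => c)
  | leaf (l : Fin n) (t : Bool → ℂ) : TF {l} (fun x => t (x l))
  | add {S S' : Finset (Fin n)} {φ ψ : (Fin n → Bool) → ℂ} (h : TF S φ) (h' : TF S' ψ)
      (hd : Disjoint S S') : TF (S ∪ S') (fun x => φ x + ψ x)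
  | mul {S S' : Finset (Fin n)} {φ ψ : (Fin n → Bool) → ℂ} (h : TF S φ) (h' : TF S' ψ)
      (hd : Disjoint S S') (h0 : ∀ x, φ x ≠ 0) (h0' : ∀ x, ψ x ≠ 0) :
      TF (S ∪ S') (fun x => φ x * ψ x)

/-- The Ramsey function: the length of a list needed for `Q` tree functions to find a sublist of
length `k` on which all of them are caterpillars. -/
def need : ℕ → ℕ → ℕ
  | 0, k => k
  | Q + 1, k => need Q (4 ^ (k + k))

/-- The number of nonzero coordinates needed for determinants of size `t`. -/
def N0 (t : ℕ) : ℕ := need (t * t) (t.factorial * 2 ^ t)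

end Pool.Agent.Helper62.VT
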