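import Mathlib
import Pool.Agent.Helper62.VT.Final

/-!
# From faithful families of tuples to all small sets of factors
-/

namespace Pool.Agent.Helper62.VT

open MvPolynomial

variable {n : ℕ}

/-- If for every finite family of tuples some specialisation is faithful on all of them, then some
specialisation is injective on the joins of at most `t` parameter algebras. -/
theorem faithful_family {M K t Q : ℕ} {R' : Type*} [CommRing R'] [Algebra ℂ R'] {I : Type*}
    (E : Set I) (s : I → MvPolynomial (Fin n) ℂ →ₐ[ℂ] R') {C' : MvPolynomial (Fin n) ℂ → Prop}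
    (h0 : C' 0) {B : Type} [Fintype B] (γ : B → Fin K → MvPolynomial (Fin n) ℂ)
    (hγ : ∀ b j, C' (γ b j)) (hM : t * K ≤ M) (hQ : (Fintype.card B + 1) ^ t ≤ Q)
    (hs : ∀ c : Fin Q → Fin M → MvPolynomial (Fin n) ℂ, (∀ q j, C' (c q j)) →
      ∃ ε ∈ E, ∀ q, ∀ H : MvPolynomial (Fin M) ℂ, aeval (c q) H ≠ 0 → s ε (aeval (c q) H) ≠ 0) :
    ∃ ε ∈ E, ∀ T : Finset B, T.card ≤ t →
      ∀ x ∈ Algebra.adjoin ℂ (⋃ b ∈ T, Set.range (γ b)), s ε x = 0 → x = 0 := by
  classical
  have hcard1 : Fintype.card (Fin t × Fin K) ≤ Fintype.card (Fin M) := by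
    rw [Fintype.card_prod, Fintype.card_fin, Fintype.card_fin, Fintype.card_fin]
    exact hM
  obtain ⟨ι⟩ := Function.Embedding.nonempty_of_card_le hcard1
  have hcard2 : Fintype.card (Fin t → Option B) ≤ Fintype.card (Fin Q) := by
    rw [Fintype.card_fun, Fintype.card_option, Fintype.card_fin, Fintype.card_fin]
    exact hQ
  obtain ⟨κ⟩ := Function.Embedding.nonempty_of_card_le hcard2
  let c1 : (Fin t → Option B) → Fin M → MvPolynomial (Fin n) ℂ := fun u =>
    Function.extend ι (fun p => (u p.1).elim 0 (fun b => γ b p.2)) 0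
  let c : Fin Q → Fin M → MvPolynomial (Fin n) ℂ := Function.extend κ c1 0
  have hc1 : ∀ u j, C' (c1 u j) := by
    intro u j
    by_cases h : ∃ p, ι p = j
    · obtain ⟨p, rfl⟩ := h
      change C' (Function.extend ι (fun p : Fin t × Fin K => (u p.1).elim 0 (fun b => γ b p.2)) 0
        (ι p))
      rw [ι.injective.extend_apply]
      cases u p.1 with
      | none => exact h0
      | some b => exact hγ b p.2
    · change C' (Function.extend ι (fun p : Fin t × Fin K => (u p.1).elim 0 (fun b => γ b p.2)) 0 j)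
      rw [Function.extend_apply' _ _ _ h]
      exact h0
  have hc : ∀ q j, C' (c q j) := by
    intro q j
    by_cases h : ∃ u, κ u = q
    · obtain ⟨u, rfl⟩ := h
      change C' (Function.extend κ c1 0 (κ u) j)
      rw [κ.injective.extend_apply]
      exact hc1 u j
    · change C' (Function.extend κ c1 0 q j)
      rw [Function.extend_apply' _ _ _ h]
      exact h0
  obtain ⟨ε, hε, hfaith⟩ := hs c hc
  refine ⟨ε, hε, fun T hT x hx hsx => ?_⟩
  have hcard3 : Fintype.card T ≤ Fintype.card (Fin t) := by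
    rw [Fintype.card_coe, Fintype.card_fin]
    exact hT
  obtain ⟨μ'⟩ := Function.Embedding.nonempty_of_card_le hcard3
  let u : Fin t → Option B := Function.extend μ' (fun b : T => some b.1) (fun _ => none)
  have hu : ∀ b : T, u (μ' b) = some b.1 := fun b => μ'.injective.extend_apply _ _ b
  have hsub : Algebra.adjoin ℂ (⋃ b ∈ T, Set.range (γ b)) ≤
      Algebra.adjoin ℂ (Set.range (c (κ u))) := by
    apply Algebra.adjoin_mono
    intro y hy
    simp only [Set.mem_iUnion] at hy
    obtain ⟨b, hb, j, rfl⟩ := hy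
    refine ⟨ι (μ' ⟨b, hb⟩, j), ?_⟩
    change Function.extend κ c1 0 (κ u) (ι (μ' ⟨b, hb⟩, j)) = _
    rw [κ.injective.extend_apply]
    change Function.extend ι (fun p : Fin t × Fin K => (u p.1).elim 0 (fun b => γ b p.2)) 0
        (ι (μ' ⟨b, hb⟩, j)) = _
    rw [ι.injective.extend_apply, hu]
    rfl
  have hx' := hsub hx
  rw [Algebra.adjoin_range_eq_range_aeval] at hx'
  obtain ⟨F, rfl⟩ := hx'
  by_contra hne
  exact hfaith (κ u) F hne hsx

end Pool.Agent.Helper62.VT
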