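import Mathlib

namespace Pool.Agent.Helper62.VT

/-- The product of the matrices `A_0(x_0), ..., A_{n-1}(x_{n-1})`. -/
noncomputable def mprod {n κ : ℕ} (A : Fin n → Matrix (Fin κ) (Fin κ) (Polynomial ℂ)) :
    Matrix (Fin κ) (Fin κ) (MvPolynomial (Fin n) ℂ) :=
  (List.ofFn fun l => (A l).map
    fun p => Polynomial.aeval (MvPolynomial.X l : MvPolynomial (Fin n) ℂ) p).prod

/-- Read-once oblivious branching programs of width `κ` in the order `x_0, ..., x_{n-1}`. -/
def IsRO (κ : ℕ) {n : ℕ} (f : MvPolynomial (Fin n) ℂ) : Prop :=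
  ∃ (A : Fin n → Matrix (Fin κ) (Fin κ) (Polynomial ℂ)) (u v : Fin κ → ℂ),
    f = ∑ i, ∑ j, MvPolynomial.C (u i) * mprod A i j * MvPolynomial.C (v j)

/-- A hitting curve. -/
noncomputable def curve (W : ℕ) : ℕ → ℕ → Polynomial ℂ
  | 0, _ => Polynomial.X
  | h + 1, l => if l % 2 = 0 then curve W h (l / 2) ^ W
      else curve W h (l / 2) ^ W + curve W h (l / 2) ^ (W - 1)

end Pool.Agent.Helper62.VT
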