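import Mathlib
import Pool.Agent.Helper62.VT.Final
import Pool.Agent.Helper28.VT.W1
import Pool.Agent.Helper76.VT.W3d

/-!
# The generator: sparse vectors, and algebraic independence from nonvanishing minors
-/

namespace Pool.Agent.Helper62.VT

open MvPolynomial
open Pool.Agent.Helper28.D4 (G)
open Pool.Agent.Helper28.VT (kap kap_ne sp sp_X_mem sp_X_notMem pderiv_sp)

variable {n : ℕ}

/-! ### The generator -/

theorem G_append {R : Type*} [CommRing R] (K K' : ℕ) (z w : Fin K → R) (z' w' : Fin K' → R) (l : Fin n) :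
    G n (K + K') (Fin.append z z') (Fin.append w w') l = G n K z w l + G n K' z' w' l := by
  rw [G, G, G, Fin.sum_univ_add]
  simp only [Fin.append_left, Fin.append_right]

theorem G_zero {R : Type*} [CommRing R] (K : ℕ) (w : Fin K → R) (l : Fin n) :
    G n K (fun _ => 0) w l = 0 := by
  rw [G]
  exact Finset.sum_eq_zero fun j _ => zero_mul _

/-- Every vector with few nonzero coordinates is a value of the generator. -/
theorem G_sparse (N : ℕ) (A : Finset (Fin n)) (hA : A.card ≤ N) (v : Fin n → ℂ)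
    (hv : ∀ l, l ∉ A → v l = 0) : ∃ z w : Fin N → ℂ, ∀ l, G n N z w l = v l := by
  classical
  have hcard : Fintype.card A ≤ Fintype.card (Fin N) := by
    rw [Fintype.card_coe, Fintype.card_fin]
    exact hA
  obtain ⟨ι⟩ := Function.Embedding.nonempty_of_card_le hcard
  let z : Fin N → ℂ := Function.extend ι (fun l : A => v l * (Pool.Agent.Helper28.VT.kap n l)⁻¹) 0
  let w : Fin N → ℂ := Function.extend ι (fun l : A => (((l : Fin n) : ℕ) : ℂ)) 0
  have hz : ∀ a : A, z (ι a) = v a * (Pool.Agent.Helper28.VT.kap n a)⁻¹ := fun a =>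
    ι.injective.extend_apply _ _ a
  have hw : ∀ a : A, w (ι a) = (((a : Fin n) : ℕ) : ℂ) := fun a =>
    ι.injective.extend_apply _ _ a
  refine ⟨z, w, fun l => ?_⟩
  have h1 : G n N z w l = ∑ a : A, z (ι a) *
      ∏ i ∈ Finset.univ.erase l, (w (ι a) - ((i : ℕ) : ℂ)) := by
    rw [G]
    symm
    have h2 := Finset.sum_map Finset.univ ι
      (fun j => z j * ∏ i ∈ Finset.univ.erase l, (w j - ((i : ℕ) : ℂ)))
    rw [← h2]
    apply Finset.sum_subset (Finset.subset_univ _)
    intro j _ hj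
    have h3 : z j = 0 := by
      apply Function.extend_apply'
      rintro ⟨a, rfl⟩
      exact hj (Finset.mem_map_of_mem ι (Finset.mem_univ a))
    rw [h3, zero_mul]
  rw [h1]
  have h4 : ∀ a : A, (a : Fin n) ≠ l → z (ι a) *
      ∏ i ∈ Finset.univ.erase l, (w (ι a) - ((i : ℕ) : ℂ)) = 0 := by
    intro a ha
    rw [Finset.prod_eq_zero (Finset.mem_erase.2 ⟨ha, Finset.mem_univ (a : Fin n)⟩), mul_zero]
    rw [hw, sub_self]
  by_cases hl : l ∈ A
  · rw [Finset.sum_eq_single (⟨l, hl⟩ : A)]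
    · rw [hz, hw]
      change v l * (Pool.Agent.Helper28.VT.kap n l)⁻¹ * Pool.Agent.Helper28.VT.kap n l = v l
      rw [mul_assoc, inv_mul_cancel₀ (Pool.Agent.Helper28.VT.kap_ne n l), mul_one]
    · intro a _ ha
      exact h4 a fun h => ha (Subtype.ext h)
    · intro h
      exact absurd (Finset.mem_univ _) h
  · rw [hv l hl]
    apply Finset.sum_eq_zero
    intro a _
    exact h4 a fun h => hl (h ▸ a.2)

/-- The specialisation of the parameters of the generator: the first `K` blocks are fixed, the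
other `M` blocks give the free variables. -/
noncomputable def chiG {K M t : ℕ} (z₀ w₀ : Fin K → ℂ) (e : Fin t → Fin n) :
    MvPolynomial (Option (Fin (K + M) ⊕ Fin (K + M))) ℂ →ₐ[ℂ] MvPolynomial (Fin t) ℂ :=
  aeval fun o => o.elim 0 (Sum.elim
    (Fin.append (fun j => C (z₀ j)) (fun j : Fin M => if h : (j : ℕ) < t then
      C (kap n (e ⟨j, h⟩))⁻¹ * (X ⟨j, h⟩ - C (G n K z₀ w₀ (e ⟨j, h⟩))) else 0))
    (Fin.append (fun j => C (w₀ j)) (fun j : Fin M => if h : (j : ℕ) < t then
      C (((e ⟨j, h⟩ : Fin n) : ℕ) : ℂ) else 0)))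

theorem chiG_spec_X {K M t : ℕ} (ht : t ≤ M) (z₀ w₀ : Fin K → ℂ) (e : Fin t → Fin n)
    (he : Function.Injective e) (l : Fin n) :
    chiG (M := M) z₀ w₀ e (spec n (K + M) (fun _ => 0) (X l)) =
      sp e (fun l => G n K z₀ w₀ l) (X l) := by
  classical
  rw [spec, aeval_X, map_zero, zero_add]
  have h1 := Pool.Agent.Helper28.D4.map_G (chiG (M := M) z₀ w₀ e).toRingHom (n := n)
    (fun j : Fin (K + M) => MvPolynomial.X (some (Sum.inl j)))
    (fun j => MvPolynomial.X (some (Sum.inr j))) l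
  simp only [AlgHom.toRingHom_eq_coe, RingHom.coe_coe] at h1
  rw [h1]
  have h3 : ∀ j : Fin (K + M), chiG (M := M) z₀ w₀ e (X (some (Sum.inl j))) =
      Fin.append (fun j => C (z₀ j)) (fun j : Fin M => if h : (j : ℕ) < t then
      C (kap n (e ⟨j, h⟩))⁻¹ * (X ⟨j, h⟩ - C (G n K z₀ w₀ (e ⟨j, h⟩))) else 0) j := by
    intro j; rw [chiG, aeval_X]; rfl
  have h4 : ∀ j : Fin (K + M), chiG (M := M) z₀ w₀ e (X (some (Sum.inr j))) =
      Fin.append (fun j => C (w₀ j)) (fun j : Fin M => if h : (j : ℕ) < t then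
      C (((e ⟨j, h⟩ : Fin n) : ℕ) : ℂ) else 0) j := by
    intro j; rw [chiG, aeval_X]; rfl
  simp_rw [h3, h4]
  rw [G_append]
  have h5 : G n K (fun j => (C (z₀ j) : MvPolynomial (Fin t) ℂ)) (fun j => C (w₀ j)) l =
      C (G n K z₀ w₀ l) := by
    have h6 := Pool.Agent.Helper28.D4.map_G (C : ℂ →+* MvPolynomial (Fin t) ℂ) (n := n) z₀ w₀ l
    exact h6.symm
  rw [h5]
  -- the second part
  have hprod : ∀ j : Fin t, (∏ i' ∈ Finset.univ.erase l,
      ((C (((e j : Fin n) : ℕ) : ℂ) : MvPolynomial (Fin t) ℂ) - (((i' : Fin n) : ℕ) : MvPolynomial (Fin t) ℂ))) =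
      if e j = l then C (kap n l) else 0 := by
    intro j
    split_ifs with h
    · rw [kap, map_prod]
      apply Finset.prod_congr rfl
      intro i _
      rw [h, map_sub, map_natCast, map_natCast]
    · apply Finset.prod_eq_zero (i := e j)
      · exact Finset.mem_erase.2 ⟨h, Finset.mem_univ _⟩
      · rw [map_natCast, sub_self]
  have hterm : ∀ j : Fin M, (if h : (j : ℕ) < t then
        C (kap n (e ⟨j, h⟩))⁻¹ * (X ⟨j, h⟩ - C (G n K z₀ w₀ (e ⟨j, h⟩))) else 0) *
      ∏ i' ∈ Finset.univ.erase l, ((if h : (j : ℕ) < t then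
        C (((e ⟨j, h⟩ : Fin n) : ℕ) : ℂ) else 0) -
        (((i' : Fin n) : ℕ) : MvPolynomial (Fin t) ℂ)) =
      if h : (j : ℕ) < t then (if e ⟨j, h⟩ = l then X ⟨j, h⟩ - C (G n K z₀ w₀ l) else 0) else 0 := by
    intro j
    by_cases h : (j : ℕ) < t
    · simp only [dif_pos h]
      rw [hprod ⟨j, h⟩]
      split_ifs with h'
      · rw [h', mul_comm (C (kap n l)⁻¹), mul_assoc, ← C_mul, inv_mul_cancel₀ (kap_ne n l), C_1,
          mul_one]
      · rw [mul_zero]
    · simp only [dif_neg h, zero_mul]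
  have h6 : G n M (fun j : Fin M => if h : (j : ℕ) < t then
        C (kap n (e ⟨j, h⟩))⁻¹ * (X ⟨j, h⟩ - C (G n K z₀ w₀ (e ⟨j, h⟩))) else 0)
      (fun j : Fin M => if h : (j : ℕ) < t then
        (C (((e ⟨j, h⟩ : Fin n) : ℕ) : ℂ) : MvPolynomial (Fin t) ℂ) else 0) l =
      ∑ j : Fin M, if h : (j : ℕ) < t then
        (if e ⟨j, h⟩ = l then X ⟨j, h⟩ - C (G n K z₀ w₀ l) else 0) else 0 :=
    Finset.sum_congr rfl (fun j _ => hterm j)
  rw [h6]
  by_cases hl : l ∈ Set.range e
  · obtain ⟨k, rfl⟩ := hl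
    rw [sp_X_mem e he, Finset.sum_eq_single (⟨k, lt_of_lt_of_le k.2 ht⟩ : Fin M)]
    · simp
    · intro j _ hj
      split_ifs with h h'
      · exfalso
        apply hj
        have := he h'
        rw [← this]
      · rfl
      · rfl
    · intro h; exact absurd (Finset.mem_univ _) h
  · rw [sp_X_notMem e _ l hl, Finset.sum_eq_zero, add_zero]
    intro j _
    split_ifs with h h'
    · exact absurd ⟨_, h'⟩ hl
    · rfl
    · rfl

theorem chiG_spec {K M t : ℕ} (ht : t ≤ M) (z₀ w₀ : Fin K → ℂ) (e : Fin t → Fin n)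
    (he : Function.Injective e) (f : MvPolynomial (Fin n) ℂ) :
    chiG (M := M) z₀ w₀ e (spec n (K + M) (fun _ => 0) f) = sp e (fun l => G n K z₀ w₀ l) f := by
  have : (chiG (M := M) z₀ w₀ e).comp (spec n (K + M) (fun _ => 0)) =
      sp e (fun l => G n K z₀ w₀ l) := by
    apply MvPolynomial.algHom_ext
    intro l
    exact chiG_spec_X ht z₀ w₀ e he l
  exact DFunLike.congr_fun this f

/-- If a Jacobian minor does not vanish at a value of the generator, the generator with `M` more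
blocks keeps the algebraic independence. -/
theorem algInd_of_minor {K M t : ℕ} (ht : t ≤ M) (c : Fin t → MvPolynomial (Fin n) ℂ)
    (e : Fin t → Fin n) (he : Function.Injective e) (z₀ w₀ : Fin K → ℂ)
    (hD : eval (fun l => G n K z₀ w₀ l) (Matrix.of fun i j => pderiv (e j) (c i)).det ≠ 0) :
    AlgebraicIndependent ℂ (fun i => spec n (K + M) (fun _ => 0) (c i)) := by
  classical
  set a : Fin n → ℂ := fun l => G n K z₀ w₀ l with ha
  have hind : AlgebraicIndependent ℂ (fun i => sp e a (c i)) := by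
    apply Pool.Agent.Helper93.D4.algInd_of_jac
    have h1 : (Matrix.of fun i j => pderiv j (sp e a (c i))) =
        (sp e a).toRingHom.mapMatrix (Matrix.of fun i j => pderiv (e j) (c i)) := by
      ext1 i j
      simp [pderiv_sp e he]
    rw [h1, ← RingHom.map_det]
    intro h0
    apply hD
    have h2 : sp e a (Matrix.of fun i j => pderiv (e j) (c i)).det = 0 := h0
    have h3 := Pool.Agent.Helper76.VT.eval_sp e he a
      (Matrix.of fun i j => pderiv (e j) (c i)).det
    rw [h2, map_zero] at h3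
    exact h3.symm
  rw [algebraicIndependent_iff]
  intro F hF
  rw [algebraicIndependent_iff] at hind
  apply hind
  have h1 := congrArg (chiG (M := M) z₀ w₀ e) hF
  rw [map_zero, comp_aeval_apply] at h1
  simp_rw [chiG_spec ht z₀ w₀ e he] at h1
  exact h1

end Pool.Agent.Helper62.VT
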