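import Mathlib
import Pool.Agent.Helper62.VT.Final

/-!
# Factors which are polynomials in few sums or products of univariate polynomials
-/

namespace Pool.Agent.Helper62.VT

open MvPolynomial
open Pool.Agent.Helper28.D4 (G)
open Pool.Agent.Helper28.VT (Sep)

variable {n : ℕ}

theorem sep_zero : Sep (0 : MvPolynomial (Fin n) ℂ) :=
  Or.inl ⟨fun _ => 0, by simp⟩

/-- The parameter of a separable function. -/
theorem sep_split {r : ℕ} {e : Fin r → Fin n} (he : Function.Injective e)
    {A : MvPolynomial (Fin n) ℂ} (hA : Sep A) :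
    ∃ γ, Sep γ ∧ split e (X : Fin n → MvPolynomial (Fin n) ℂ) A ∈ W r (Algebra.adjoin ℂ {γ}) := by
  classical
  have haev : ∀ (l : Fin n) (q : Polynomial ℂ),
      split e (X : Fin n → MvPolynomial (Fin n) ℂ) (Polynomial.aeval (X l) q) =
        Polynomial.aeval (split e (X : Fin n → MvPolynomial (Fin n) ℂ) (X l)) q := by
    intro l q
    rw [← Polynomial.aeval_algHom_apply]
  have hC : ∀ (x : MvPolynomial (Fin n) ℂ) (q : Polynomial ℂ),
      Polynomial.aeval (C x : MvPolynomial (Fin r) (MvPolynomial (Fin n) ℂ)) q =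
        C (Polynomial.aeval x q) := by
    intro x q
    rw [← MvPolynomial.algebraMap_eq, Polynomial.aeval_algebraMap_apply]
  rcases hA with ⟨q, rfl⟩ | ⟨q, rfl⟩
  · set q' : Fin n → Polynomial ℂ := fun l => if ∃ j, e j = l then 0 else q l with hq'
    set γ : MvPolynomial (Fin n) ℂ := ∑ l, Polynomial.aeval (X l) (q' l) with hγ
    refine ⟨γ, Or.inl ⟨q', rfl⟩, ?_⟩
    have h1 : split e (X : Fin n → MvPolynomial (Fin n) ℂ) (∑ l, Polynomial.aeval (X l) (q l)) =
        C γ + ∑ l, (Polynomial.aeval (split e (X : Fin n → MvPolynomial (Fin n) ℂ) (X l)) (q l) -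
          C (Polynomial.aeval (X l) (q' l))) := by
      rw [Finset.sum_sub_distrib, hγ, map_sum, map_sum]
      simp only [haev]
      ring
    rw [h1]
    refine Subalgebra.add_mem _ (C_mem_W (Algebra.subset_adjoin rfl)) (Subalgebra.sum_mem _ ?_)
    intro l _
    by_cases hl : ∃ j, e j = l
    · obtain ⟨j, rfl⟩ := hl
      have h2 : q' (e j) = 0 := by
        rw [hq']
        exact if_pos ⟨j, rfl⟩
      rw [h2, map_zero, map_zero, sub_zero, split_X_mem he]
      exact polynomial_aeval_mem (X_mem_W _ j) _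
    · have h2 : q' l = q l := by
        rw [hq']
        exact if_neg hl
      rw [h2, split_X_not _ (fun j h => hl ⟨j, h⟩), hC, sub_self]
      exact Subalgebra.zero_mem _
  · set q' : Fin n → Polynomial ℂ := fun l => if ∃ j, e j = l then 1 else q l with hq'
    set γ : MvPolynomial (Fin n) ℂ := ∏ l, Polynomial.aeval (X l) (q' l) with hγ
    refine ⟨γ, Or.inr ⟨q', rfl⟩, ?_⟩
    have h1 : split e (X : Fin n → MvPolynomial (Fin n) ℂ) (∏ l, Polynomial.aeval (X l) (q l)) =
        C γ * ∏ l, (if ∃ j, e j = l then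
          Polynomial.aeval (split e (X : Fin n → MvPolynomial (Fin n) ℂ) (X l)) (q l) else 1) := by
      rw [hγ, map_prod, map_prod, ← Finset.prod_mul_distrib]
      refine Finset.prod_congr rfl fun l _ => ?_
      rw [haev]
      by_cases hl : ∃ j, e j = l
      · have h2 : q' l = 1 := by
          rw [hq']
          exact if_pos hl
        rw [h2, if_pos hl, map_one, map_one, one_mul]
      · have h2 : q' l = q l := by
          rw [hq']
          exact if_neg hl
        rw [h2, if_neg hl, split_X_not _ (fun j h => hl ⟨j, h⟩), hC, mul_one]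
    rw [h1]
    refine Subalgebra.mul_mem _ (C_mem_W (Algebra.subset_adjoin rfl)) (Subalgebra.prod_mem _ ?_)
    intro l _
    by_cases hl : ∃ j, e j = l
    · rw [if_pos hl]
      obtain ⟨j, rfl⟩ := hl
      rw [split_X_mem he]
      exact polynomial_aeval_mem (X_mem_W _ j) _
    · rw [if_neg hl]
      exact Subalgebra.one_mem _

/-- The curve of the separable case. -/
theorem spec_X (M : ℕ) : spec n M (fun _ => Polynomial.X) = Pool.Agent.Helper28.VT.Psi n M := by
  rw [spec, Pool.Agent.Helper28.VT.Psi]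
  congr 1
  funext l
  rw [Polynomial.aeval_X]

/-- The factors. -/
def SepFactors (n κ : ℕ) : Set (MvPolynomial (Fin n) ℂ) :=
  {f | ∃ (A : Fin κ → MvPolynomial (Fin n) ℂ) (F : MvPolynomial (Fin κ) ℂ),
    (∀ j, Sep (A j)) ∧ f = aeval A F}

theorem sep_hits {m r κ d : ℕ} (P : Fin m → MvPolynomial (Fin n) ℂ)
    (hP : ∀ i, P i ∈ Submonoid.closure (SepFactors n κ))
    (hr : ∀ s : Fin (r + 1) → Fin m, ¬ AlgebraicIndependent ℂ fun i => P (s i))
    (g : MvPolynomial (Fin m) ℂ) (h0 : aeval P g ≠ 0) (hd : (aeval P g).totalDegree ≤ d) :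
    ∃ a ∈ pts n (r + (r + 1) * κ) (fun _ => (Polynomial.X : Polynomial ℤ).eval) (d * (n + 1)),
      eval (fun l => ((a l : ℤ) : ℂ)) (aeval P g) ≠ 0 := by
  classical
  obtain ⟨ε, hε, h⟩ := exists_point (M := (r + 1) * κ) (D := 1) P hr g h0 hd
    {fun _ => Polynomial.X} (by
      rintro ε rfl l
      exact Polynomial.natDegree_X_le) (b := d * (n + 1)) (by
      rw [add_comm 1 n]) (by
      intro r' hr' t ht e he
      have hL : ∀ i, ∃ L : List (MvPolynomial (Fin n) ℂ), (∀ q ∈ L, q ∈ SepFactors n κ) ∧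
          P (t i) = L.prod := fun i => by
        obtain ⟨L, hL, h⟩ := Submonoid.exists_list_of_mem_closure (hP (t i))
        exact ⟨L, hL, h.symm⟩
      choose L hL1 hL2 using hL
      obtain ⟨B, hB1, hB2, f, mm, hf0, hfL, hfP, -⟩ :=
        exists_factorization (fun i => P (t i)) L hL2 ht
      refine ⟨B, hB1, hB2, f, mm, hf0, hfP, ?_⟩
      have hfac : ∀ b, f b ∈ SepFactors n κ := by
        intro b
        obtain ⟨i, hi⟩ := hfL b
        exact hL1 i _ hi
      choose A F hA hfA using hfac
      have hγ : ∀ b j, ∃ γ, Sep γ ∧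
          split e (X : Fin n → MvPolynomial (Fin n) ℂ) (A b j) ∈ W r' (Algebra.adjoin ℂ {γ}) :=
        fun b j => sep_split he (hA b j)
      choose γ hγ1 hγ2 using hγ
      refine ⟨fun b => Set.range (γ b), ?_, fun _ => Polynomial.X, rfl, ?_⟩
      · intro b k
        rw [hfA b]
        apply coeff_split_aeval
        intro j
        refine W_mono (Algebra.adjoin_mono ?_) (hγ2 b j)
        rintro _ rfl
        exact ⟨j, rfl⟩
      · intro T hT
        rw [spec_X]
        exact faithful_of_tuple _ sep_zero γ hγ1 (t := r' + 1)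
          (Nat.mul_le_mul_right κ (Nat.succ_le_succ hr'))
          (fun c hc H hH => Pool.Agent.Helper28.VT.sep_faithful n _ c hc H hH) T hT)
  rw [Set.mem_singleton_iff] at hε
  subst hε
  exact h

/-- Bound for the values of the generator. -/
theorem G_bound (n K b : ℕ) (z w : Fin K → Fin (b + 1)) (i : Fin n) :
    |G n K (fun j => ((z j : ℕ) : ℤ)) (fun j => ((w j : ℕ) : ℤ)) i| ≤
      (K : ℤ) * b * ((b : ℤ) + n) ^ n := by
  have hle : ∀ x : Fin (b + 1), ((x : ℕ) : ℤ) ≤ b := fun x => by
    exact_mod_cast Nat.lt_succ_iff.1 x.2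
  have h0 : ∀ x : Fin (b + 1), (0 : ℤ) ≤ ((x : ℕ) : ℤ) := fun x => by positivity
  rw [G]
  refine (Finset.abs_sum_le_sum_abs _ _).trans ?_
  refine (Finset.sum_le_card_nsmul _ _ ((b : ℤ) * ((b : ℤ) + n) ^ n) ?_).trans ?_
  · intro j _
    rw [abs_mul, abs_of_nonneg (h0 (z j))]
    refine mul_le_mul (hle _) ?_ (abs_nonneg _) (by positivity)
    rw [Finset.abs_prod]
    refine (Finset.prod_le_prod (fun _ _ => abs_nonneg _)
      (g := fun _ => (b : ℤ) + n) ?_).trans ?_
    · intro l _
      rw [sub_eq_add_neg]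
      refine (abs_add_le _ _).trans (add_le_add ?_ ?_)
      · rw [abs_of_nonneg (h0 (w j))]
        exact hle _
      · rw [abs_neg, abs_of_nonneg (by positivity)]
        exact_mod_cast l.2.le
    · rw [Finset.prod_const]
      rcases Nat.eq_zero_or_pos n with hn | hn
      · subst hn
        exact i.elim0
      · apply pow_le_pow_right₀
        · have : (1 : ℤ) ≤ n := by exact_mod_cast hn
          have h2 : (0 : ℤ) ≤ b := by positivity
          omega
        · refine (Finset.card_le_univ _).trans ?_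
          rw [Fintype.card_fin]
  · rw [Finset.card_univ, Fintype.card_fin, nsmul_eq_mul, mul_assoc]

/-- Bound for the coordinates. -/
theorem pts_bound_X (n K b : ℕ) (a : Fin n → ℤ)
    (ha : a ∈ pts n K (fun _ => (Polynomial.X : Polynomial ℤ).eval) b) (i : Fin n) :
    |a i| ≤ (b : ℤ) + K * b * ((b : ℤ) + n) ^ n := by
  obtain ⟨⟨t, z, w⟩, -, rfl⟩ := Finset.mem_image.1 ha
  dsimp only
  rw [Polynomial.eval_X]
  refine (abs_add_le _ _).trans (add_le_add ?_ (G_bound n K b z w i))
  rw [abs_of_nonneg (by positivity)]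
  exact_mod_cast Nat.lt_succ_iff.1 t.2

end Pool.Agent.Helper62.VT
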