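import Mathlib
import Pool.Agent.Helper62.VT.Family
import Pool.Agent.Helper62.VT.RoabpDef
import Pool.Agent.Helper62.VT.Separable
import Pool.Agent.Helper21.VT.W3c
import Pool.Agent.Helper22.VT.W3b
import Pool.Agent.Helper76.VT.W3d

/-!
# Factors which are polynomials in few read-once oblivious branching programs of constant width
-/

namespace Pool.Agent.Helper62.VT

open MvPolynomial
open Pool.Agent.Helper28.D4 (G)

/-! ### Products over intervals -/

theorem ofFn_empty {Mo : Type*} [Monoid Mo] {n : ℕ} (B : Fin n → Mo) (p : ℕ → Prop)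
    [DecidablePred p] (hp : ∀ l : Fin n, ¬ p l) :
    (List.ofFn fun l : Fin n => if p l then B l else 1).prod = 1 := by
  apply List.prod_eq_one
  intro x hx
  rw [List.mem_ofFn] at hx
  obtain ⟨l, rfl⟩ := hx
  exact if_neg (hp l)

theorem ofFn_split {Mo : Type*} [Monoid Mo] : ∀ (n : ℕ) (B : Fin n → Mo) (a b : ℕ), a ≤ b →
    (List.ofFn fun l : Fin n => if a ≤ (l : ℕ) then B l else 1).prod =
      (List.ofFn fun l : Fin n => if a ≤ (l : ℕ) ∧ (l : ℕ) < b then B l else 1).prod *
        (List.ofFn fun l : Fin n => if b ≤ (l : ℕ) then B l else 1).prod := by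
  intro n
  induction n with
  | zero => intro B a b _; simp
  | succ n ih =>
    intro B a b hab
    rcases Nat.eq_zero_or_pos b with hb | hb
    · subst hb
      have ha : a = 0 := Nat.le_zero.1 hab
      subst ha
      rw [ofFn_empty B (fun l => 0 ≤ l ∧ l < 0) (fun l h => absurd h.2 (Nat.not_lt_zero _)), one_mul]
    · have h1 := ih (fun l => B l.succ) (a - 1) (b - 1) (Nat.sub_le_sub_right hab 1)
      rw [List.ofFn_succ, List.ofFn_succ, List.ofFn_succ, List.prod_cons, List.prod_cons,
        List.prod_cons]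
      have e1 : (fun l : Fin n => if a ≤ ((l.succ : Fin (n + 1)) : ℕ) then B l.succ else 1) =
          fun l : Fin n => if a - 1 ≤ (l : ℕ) then B l.succ else 1 := by
        funext l
        rw [Fin.val_succ]
        exact if_congr (by omega) rfl rfl
      have e2 : (fun l : Fin n => if a ≤ ((l.succ : Fin (n + 1)) : ℕ) ∧
          ((l.succ : Fin (n + 1)) : ℕ) < b then B l.succ else 1) =
          fun l : Fin n => if a - 1 ≤ (l : ℕ) ∧ (l : ℕ) < b - 1 then B l.succ else 1 := by
        funext l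
        rw [Fin.val_succ]
        exact if_congr (by omega) rfl rfl
      have e3 : (fun l : Fin n => if b ≤ ((l.succ : Fin (n + 1)) : ℕ) then B l.succ else 1) =
          fun l : Fin n => if b - 1 ≤ (l : ℕ) then B l.succ else 1 := by
        funext l
        rw [Fin.val_succ]
        exact if_congr (by omega) rfl rfl
      rw [e1, e2, e3, h1]
      have h2 : ¬ b ≤ ((0 : Fin (n + 1)) : ℕ) := by
        rw [Fin.val_zero]
        omega
      rw [if_neg h2, one_mul, ← mul_assoc]
      congr 2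
      rw [Fin.val_zero]
      exact if_congr (by omega) rfl rfl

theorem ofFn_single {Mo : Type*} [Monoid Mo] : ∀ (n : ℕ) (B : Fin n → Mo) (a : Fin n),
    (List.ofFn fun l : Fin n => if (a : ℕ) ≤ (l : ℕ) ∧ (l : ℕ) < (a : ℕ) + 1 then B l else 1).prod =
      B a := by
  intro n
  induction n with
  | zero => intro B a; exact a.elim0
  | succ n ih =>
    intro B a
    rw [List.ofFn_succ, List.prod_cons]
    induction a using Fin.cases with
    | zero =>
      have h1 : (List.ofFn fun l : Fin n => if ((0 : Fin (n + 1)) : ℕ) ≤ ((l.succ : Fin (n + 1)) : ℕ) ∧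
          ((l.succ : Fin (n + 1)) : ℕ) < ((0 : Fin (n + 1)) : ℕ) + 1 then B l.succ else 1).prod = 1 := by
        apply List.prod_eq_one
        intro x hx
        rw [List.mem_ofFn] at hx
        obtain ⟨l, rfl⟩ := hx
        rw [if_neg]
        rw [Fin.val_succ, Fin.val_zero]
        omega
      rw [h1, mul_one, if_pos]
      rw [Fin.val_zero]
      omega
    | succ a =>
      have e1 : (fun l : Fin n => if ((a.succ : Fin (n + 1)) : ℕ) ≤ ((l.succ : Fin (n + 1)) : ℕ) ∧
          ((l.succ : Fin (n + 1)) : ℕ) < ((a.succ : Fin (n + 1)) : ℕ) + 1 then B l.succ else 1) =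
          fun l : Fin n => if (a : ℕ) ≤ (l : ℕ) ∧ (l : ℕ) < (a : ℕ) + 1 then B l.succ else 1 := by
        funext l
        rw [Fin.val_succ, Fin.val_succ]
        exact if_congr (by omega) rfl rfl
      rw [e1, ih (fun l => B l.succ) a, if_neg, one_mul]
      rw [Fin.val_succ, Fin.val_zero]
      omega

variable {n : ℕ}

/-! ### The parameters -/

section Params

variable {r κ : ℕ} (e : Fin r → Fin n) (A : Fin n → Matrix (Fin κ) (Fin κ) (Polynomial ℂ))

theorem exists_nxt (a : ℕ) : ∃ b, a ≤ b ∧ ((∃ j, (e j : ℕ) = b) ∨ n ≤ b) :=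
  ⟨max a n, le_max_left _ _, Or.inr (le_max_right _ _)⟩

/-- The next variable in the range of `e`. -/
noncomputable def nxt (a : ℕ) : ℕ := by
  classical exact Nat.find (exists_nxt e a)

theorem nxt_spec (a : ℕ) : a ≤ nxt e a ∧ ((∃ j, (e j : ℕ) = nxt e a) ∨ n ≤ nxt e a) := by
  classical exact Nat.find_spec (exists_nxt e a)

theorem nxt_min (a : ℕ) {b : ℕ} (hab : a ≤ b) (hb : b < nxt e a) : ∀ j, (e j : ℕ) ≠ b := by
  classical
  intro j hj
  exact Nat.find_min (exists_nxt e a) hb ⟨hab, Or.inl ⟨j, hj⟩⟩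

/-- The product of the matrices up to the next variable in the range of `e`. -/
noncomputable def gap (a : ℕ) : Matrix (Fin κ) (Fin κ) (MvPolynomial (Fin n) ℂ) :=
  mprod fun l => if a ≤ (l : ℕ) ∧ (l : ℕ) < nxt e a then A l else 1

/-- The matrices after splitting. -/
noncomputable def Bm (l : Fin n) :
    Matrix (Fin κ) (Fin κ) (MvPolynomial (Fin r) (MvPolynomial (Fin n) ℂ)) :=
  (A l).map fun p => Polynomial.aeval (split e (X : Fin n → MvPolynomial (Fin n) ℂ) (X l)) p

/-- The products of the matrices from `a` on. -/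
noncomputable def Sm (a : ℕ) :
    Matrix (Fin κ) (Fin κ) (MvPolynomial (Fin r) (MvPolynomial (Fin n) ℂ)) :=
  (List.ofFn fun l : Fin n => if a ≤ (l : ℕ) then Bm e A l else 1).prod

theorem gap_map (a : ℕ) :
    (C : MvPolynomial (Fin n) ℂ →+* MvPolynomial (Fin r) (MvPolynomial (Fin n) ℂ)).mapMatrix
      (gap e A a) =
      (List.ofFn fun l : Fin n => if a ≤ (l : ℕ) ∧ (l : ℕ) < nxt e a then Bm e A l else 1).prod := by
  classical
  rw [gap, mprod, map_list_prod, List.map_ofFn]
  congr 2
  funext l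
  change (C : MvPolynomial (Fin n) ℂ →+* MvPolynomial (Fin r) (MvPolynomial (Fin n) ℂ)).mapMatrix
    ((Polynomial.aeval (X l : MvPolynomial (Fin n) ℂ)).mapMatrix
      (if a ≤ (l : ℕ) ∧ (l : ℕ) < nxt e a then A l else 1)) = _
  by_cases h : a ≤ (l : ℕ) ∧ (l : ℕ) < nxt e a
  · rw [if_pos h, if_pos h]
    have h1 : ∀ j, e j ≠ l := fun j hj => nxt_min e a h.1 h.2 j (by rw [hj])
    ext1 i j
    change C (Polynomial.aeval (X l : MvPolynomial (Fin n) ℂ) (A l i j)) =
      Polynomial.aeval (split e (X : Fin n → MvPolynomial (Fin n) ℂ) (X l)) (A l i j)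
    rw [split_X_not _ h1, ← MvPolynomial.algebraMap_eq, Polynomial.aeval_algebraMap_apply]
  · rw [if_neg h, if_neg h, map_one, map_one]

theorem Sm_ge (a : ℕ) (ha : n ≤ a) : Sm e A a = 1 := by
  rw [Sm]
  exact ofFn_empty _ (fun l => a ≤ l) fun l h => absurd (h.trans_lt l.2) (not_lt.2 ha)

theorem Sm_mark (a : ℕ) : Sm e A a =
    (C : MvPolynomial (Fin n) ℂ →+* MvPolynomial (Fin r) (MvPolynomial (Fin n) ℂ)).mapMatrix
      (gap e A a) * Sm e A (nxt e a) := by
  rw [gap_map, Sm, Sm]
  exact ofFn_split n _ a (nxt e a) (nxt_spec e a).1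

theorem Sm_step (j : Fin r) : Sm e A (e j) = Bm e A (e j) * Sm e A ((e j : ℕ) + 1) := by
  rw [Sm, Sm, ofFn_split n _ (e j) ((e j : ℕ) + 1) (Nat.le_succ _), ofFn_single]

/-- The marks. -/
def mark (o : Option (Fin r)) : ℕ := o.elim 0 fun j => (e j : ℕ) + 1

theorem Sm_mem (he : Function.Injective e) (S : Subalgebra ℂ (MvPolynomial (Fin n) ℂ))
    (hS : ∀ o i j, gap e A (mark e o) i j ∈ S) :
    ∀ (k : ℕ) (o : Option (Fin r)), n ≤ mark e o + k → ∀ i j, Sm e A (mark e o) i j ∈ W r S := by
  intro k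
  induction k using Nat.strong_induction_on with
  | _ k ih =>
    intro o ho i j
    rw [Sm_mark, Matrix.mul_apply]
    refine Subalgebra.sum_mem _ fun s _ => Subalgebra.mul_mem _ (C_mem_W (hS o i s)) ?_
    rcases (nxt_spec e (mark e o)).2 with ⟨j', hj'⟩ | h
    · rw [← hj', Sm_step, Matrix.mul_apply]
      refine Subalgebra.sum_mem _ fun s' _ => Subalgebra.mul_mem _ ?_ ?_
      · change Polynomial.aeval (split e (X : Fin n → MvPolynomial (Fin n) ℂ) (X (e j')))
          (A (e j') s s') ∈ W r S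
        rw [split_X_mem he]
        exact polynomial_aeval_mem (X_mem_W _ j') _
      · have h1 : mark e o ≤ (e j' : ℕ) := by
          rw [hj']
          exact (nxt_spec e (mark e o)).1
        have h2 : (e j' : ℕ) < n := (e j').2
        have h3 : 0 < k := by omega
        exact ih (k - 1) (by omega) (some j') (by
          change n ≤ (e j' : ℕ) + 1 + (k - 1)
          omega) s' j
    · rw [Sm_ge _ _ _ h, Matrix.one_apply]
      split_ifs
      · exact Subalgebra.one_mem _
      · exact Subalgebra.zero_mem _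

theorem mprod_map : (split e (X : Fin n → MvPolynomial (Fin n) ℂ)).mapMatrix (mprod A) =
    Sm e A 0 := by
  rw [mprod, Sm, map_list_prod, List.map_ofFn]
  congr 2
  funext l
  rw [if_pos (Nat.zero_le _)]
  ext1 i j
  change split e (X : Fin n → MvPolynomial (Fin n) ℂ)
    (Polynomial.aeval (X l : MvPolynomial (Fin n) ℂ) (A l i j)) =
      Polynomial.aeval (split e (X : Fin n → MvPolynomial (Fin n) ℂ) (X l)) (A l i j)
  rw [← Polynomial.aeval_algHom_apply]

end Params

theorem isRO_zero (κ : ℕ) : IsRO κ (0 : MvPolynomial (Fin n) ℂ) :=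
  ⟨fun _ => 1, 0, 0, by simp⟩

theorem isRO_entry {κ : ℕ} (A : Fin n → Matrix (Fin κ) (Fin κ) (Polynomial ℂ)) (i j : Fin κ) :
    IsRO κ (mprod A i j) := by
  classical
  refine ⟨A, Pi.single i 1, Pi.single j 1, ?_⟩
  rw [Finset.sum_eq_single i, Finset.sum_eq_single j]
  · rw [Pi.single_eq_same, Pi.single_eq_same, C_1, one_mul, mul_one]
  · intro j' _ hj'
    rw [Pi.single_eq_of_ne hj', C_0, mul_zero]
  · intro h
    exact absurd (Finset.mem_univ j) h
  · intro i' _ hi'
    apply Finset.sum_eq_zero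
    intro j' _
    rw [Pi.single_eq_of_ne hi', C_0, zero_mul, zero_mul]
  · intro h
    exact absurd (Finset.mem_univ i) h

/-- The parameters of a tuple of branching programs. -/
theorem exists_roabp_params {r R κ q : ℕ} {e : Fin r → Fin n} (he : Function.Injective e)
    (hr : r ≤ R) (f : Fin q → MvPolynomial (Fin n) ℂ) (hf : ∀ j, IsRO κ (f j)) :
    ∃ γ : Fin (q * ((R + 1) * κ ^ 2)) → MvPolynomial (Fin n) ℂ, (∀ j, IsRO κ (γ j)) ∧
      ∀ j, split e (X : Fin n → MvPolynomial (Fin n) ℂ) (f j) ∈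
        W r (Algebra.adjoin ℂ (Set.range γ)) := by
  classical
  choose A u v hf using hf
  have hcard : Fintype.card (Fin q × Option (Fin r) × Fin κ × Fin κ) ≤
      Fintype.card (Fin (q * ((R + 1) * κ ^ 2))) := by
    rw [Fintype.card_prod, Fintype.card_prod, Fintype.card_prod, Fintype.card_option,
      Fintype.card_fin, Fintype.card_fin, Fintype.card_fin, Fintype.card_fin, sq]
    exact Nat.mul_le_mul_left q (Nat.mul_le_mul_right _ (Nat.succ_le_succ hr))
  obtain ⟨ι⟩ := Function.Embedding.nonempty_of_card_le hcard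
  let γ0 : Fin q × Option (Fin r) × Fin κ × Fin κ → MvPolynomial (Fin n) ℂ := fun p =>
    gap e (A p.1) (mark e p.2.1) p.2.2.1 p.2.2.2
  refine ⟨Function.extend ι γ0 0, ?_, ?_⟩
  · intro j
    by_cases h : ∃ p, ι p = j
    · obtain ⟨p, rfl⟩ := h
      rw [ι.injective.extend_apply]
      exact isRO_entry _ _ _
    · rw [Function.extend_apply' _ _ _ h]
      exact isRO_zero κ
  · intro j
    have h1 := Sm_mem e (A j) he (Algebra.adjoin ℂ (Set.range (Function.extend ι γ0 0))) (by
      intro o i i'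
      apply Algebra.subset_adjoin
      refine ⟨ι (j, o, i, i'), ?_⟩
      rw [ι.injective.extend_apply]) n none (Nat.le_add_left n _)
    have h2 : ∀ (c : ℂ), split e (X : Fin n → MvPolynomial (Fin n) ℂ) (C c) ∈
        W r (Algebra.adjoin ℂ (Set.range (Function.extend ι γ0 0))) := by
      intro c
      rw [← MvPolynomial.algebraMap_eq, AlgHom.commutes]
      exact Subalgebra.algebraMap_mem _ c
    rw [hf j, map_sum]
    refine Subalgebra.sum_mem _ fun i _ => ?_
    rw [map_sum]
    refine Subalgebra.sum_mem _ fun i' _ => ?_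
    rw [map_mul, map_mul]
    refine Subalgebra.mul_mem _ (Subalgebra.mul_mem _ (h2 _) ?_) (h2 _)
    have h3 : split e (X : Fin n → MvPolynomial (Fin n) ℂ) (mprod (A j) i i') =
        Sm e (A j) 0 i i' := by
      rw [← mprod_map]
      rfl
    rw [h3]
    exact h1 i i'

/-! ### The integral curve -/

/-- The curve with integer coefficients. -/
noncomputable def curveZ (W : ℕ) : ℕ → ℕ → Polynomial ℤ
  | 0, _ => Polynomial.X
  | h + 1, l => if l % 2 = 0 then curveZ W h (l / 2) ^ W
      else curveZ W h (l / 2) ^ W + curveZ W h (l / 2) ^ (W - 1)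

theorem curveZ_map (W : ℕ) : ∀ h l, (curveZ W h l).map (algebraMap ℤ ℂ) = curve W h l := by
  intro h
  induction h with
  | zero =>
    intro l
    rw [curveZ, curve, Polynomial.map_X]
  | succ h ih =>
    intro l
    rw [curveZ, curve]
    split_ifs
    · rw [Polynomial.map_pow, ih]
    · rw [Polynomial.map_add, Polynomial.map_pow, Polynomial.map_pow, ih]

theorem curveZ_natDegree (W h l : ℕ) (hW : 1 ≤ W) : (curveZ W h l).natDegree ≤ W ^ h := by
  rw [← Polynomial.natDegree_map_eq_of_injective (f := algebraMap ℤ ℂ)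
    (FaithfulSMul.algebraMap_injective ℤ ℂ), curveZ_map]
  exact Pool.Agent.Helper22.VT.curve_natDegree W h l hW

theorem spec_curve (M W h : ℕ) :
    spec n M (fun l => curveZ W h l) = Pool.Agent.Helper76.VT.PsiR n M W h := by
  rw [spec, Pool.Agent.Helper76.VT.PsiR]
  congr 1
  funext l
  rw [← curveZ_map, Polynomial.aeval_map_algebraMap]

/-- The values of the curve. -/
def curveVal (W : ℕ) : ℕ → ℕ → ℤ → ℤ
  | 0, _, t => t
  | h + 1, l, t => if l % 2 = 0 then curveVal W h (l / 2) t ^ W
      else curveVal W h (l / 2) t ^ W + curveVal W h (l / 2) t ^ (W - 1)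

theorem curveZ_eval (W : ℕ) : ∀ h l t, (curveZ W h l).eval t = curveVal W h l t := by
  intro h
  induction h with
  | zero =>
    intro l t
    rw [curveZ, curveVal, Polynomial.eval_X]
  | succ h ih =>
    intro l t
    rw [curveZ, curveVal]
    split_ifs
    · rw [Polynomial.eval_pow, ih]
    · rw [Polynomial.eval_add, Polynomial.eval_pow, Polynomial.eval_pow, ih]

theorem curveVal_bound (W b : ℕ) (hW : 1 ≤ W) (t : ℤ) (h0 : 0 ≤ t) (hb : t ≤ b) : ∀ h l,
    0 ≤ curveVal W h l t ∧ curveVal W h l t + 1 ≤ ((b : ℤ) + 2) ^ ((W + 1) ^ h) := by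
  intro h
  induction h with
  | zero =>
    intro l
    rw [curveVal, pow_zero, pow_one]
    exact ⟨h0, by linarith⟩
  | succ h ih =>
    intro l
    obtain ⟨h1, h2⟩ := ih (l / 2)
    set c := curveVal W h (l / 2) t with hc
    set E : ℤ := ((b : ℤ) + 2) ^ ((W + 1) ^ h) with hE
    have hE2 : 2 ≤ E := by
      have h3 : ((b : ℤ) + 2) ^ 1 ≤ E := pow_le_pow_right₀ (by linarith [Int.natCast_nonneg b])
        (Nat.one_le_pow _ _ (Nat.succ_pos W))
      rw [pow_one] at h3
      linarith [Int.natCast_nonneg b]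
    have hpow : ((b : ℤ) + 2) ^ ((W + 1) ^ (h + 1)) = E ^ (W + 1) := by
      rw [hE, ← pow_mul, pow_succ]
    have h4 : c ^ W + c ^ (W - 1) ≤ (c + 1) ^ W := by
      obtain ⟨w, rfl⟩ := Nat.exists_eq_add_of_le' hW
      rw [Nat.add_sub_cancel, pow_succ, pow_succ]
      have h5 : c ^ w ≤ (c + 1) ^ w := pow_le_pow_left₀ h1 (by linarith) w
      have h6 : c ^ w * c + c ^ w = c ^ w * (c + 1) := by ring
      rw [h6]
      exact mul_le_mul_of_nonneg_right h5 (by linarith)
    have h5 : (c + 1) ^ W ≤ E ^ W := pow_le_pow_left₀ (by linarith) h2 W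
    have h6 : 1 ≤ E ^ W := one_le_pow₀ (by linarith)
    have h7 : E ^ W + 1 ≤ E ^ (W + 1) := by
      rw [pow_succ]
      nlinarith
    have h8 : 0 ≤ c ^ W := pow_nonneg h1 W
    have h9 : 0 ≤ c ^ (W - 1) := pow_nonneg h1 _
    rw [curveVal, hpow]
    split_ifs
    · exact ⟨h8, by linarith⟩
    · exact ⟨by linarith, by linarith⟩

/-! ### The final theorem for branching programs -/

/-- The factors. -/
def RoFactors (n q κ : ℕ) : Set (MvPolynomial (Fin n) ℂ) :=
  {f | ∃ (A : Fin q → MvPolynomial (Fin n) ℂ) (F : MvPolynomial (Fin q) ℂ),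
    (∀ j, IsRO κ (A j)) ∧ f = aeval A F}

/-- The number of parameters of `r + 1` factors. -/
def MR (r q κ : ℕ) : ℕ := (r + 1) * (q * ((r + 1) * κ ^ 2))

/-- The exponent of the curve. -/
def WR (r q κ : ℕ) : ℕ := (MR r q κ).factorial * κ ^ MR r q κ

theorem roabp_hits {m r q κ d : ℕ} (hκ : 1 ≤ κ) (P : Fin m → MvPolynomial (Fin n) ℂ)
    (hP : ∀ i, P i ∈ Submonoid.closure (RoFactors n q κ))
    (hr : ∀ s : Fin (r + 1) → Fin m, ¬ AlgebraicIndependent ℂ fun i => P (s i))
    (g : MvPolynomial (Fin m) ℂ) (h0 : aeval P g ≠ 0) (hd : (aeval P g).totalDegree ≤ d) :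
    ∃ a ∈ pts n (r + MR r q κ) (fun l => curveVal (WR r q κ) (Nat.clog 2 n) l)
      (d * (WR r q κ ^ Nat.clog 2 n + n)),
      eval (fun l => ((a l : ℤ) : ℂ)) (aeval P g) ≠ 0 := by
  classical
  have hW : 1 ≤ WR r q κ := Nat.mul_pos (Nat.factorial_pos _) (Nat.pow_pos hκ)
  obtain ⟨ε, hε, h⟩ := exists_point (M := MR r q κ) (D := WR r q κ ^ Nat.clog 2 n) P hr g h0 hd
    {fun l : Fin n => curveZ (WR r q κ) (Nat.clog 2 n) l} (by
      rintro ε rfl l
      exact curveZ_natDegree _ _ _ hW) (b := d * (WR r q κ ^ Nat.clog 2 n + n)) le_rfl (by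
      intro r' hr' t ht e he
      have hL : ∀ i, ∃ L : List (MvPolynomial (Fin n) ℂ), (∀ f ∈ L, f ∈ RoFactors n q κ) ∧
          P (t i) = L.prod := fun i => by
        obtain ⟨L, hL, h⟩ := Submonoid.exists_list_of_mem_closure (hP (t i))
        exact ⟨L, hL, h.symm⟩
      choose L hL1 hL2 using hL
      obtain ⟨B, hB1, hB2, f, mm, hf0, hfL, hfP, -⟩ :=
        exists_factorization (fun i => P (t i)) L hL2 ht
      refine ⟨B, hB1, hB2, f, mm, hf0, hfP, ?_⟩
      have hfac : ∀ b, f b ∈ RoFactors n q κ := by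
        intro b
        obtain ⟨i, hi⟩ := hfL b
        exact hL1 i _ hi
      choose A F hA hfA using hfac
      choose γ hγ1 hγ2 using fun b => exists_roabp_params he hr' (A b) (hA b)
      refine ⟨fun b => Set.range (γ b), ?_, fun l => curveZ (WR r q κ) (Nat.clog 2 n) l, rfl, ?_⟩
      · intro b k
        rw [hfA b]
        exact coeff_split_aeval _ _ _ (hγ2 b) k
      · intro T hT
        rw [spec_curve]
        exact faithful_of_tuple _ (isRO_zero κ) γ hγ1 (t := r' + 1)
          (Nat.mul_le_mul_right _ (Nat.succ_le_succ hr'))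
          (fun c hc H hH => Pool.Agent.Helper76.VT.roabp_faithful_of n _ κ _ hκ
            (fun f hf hf0 => Pool.Agent.Helper22.VT.curve_hits _ _ n hW
              (Nat.le_pow_clog (by norm_num) n) f hf hf0) c hc H hH) T hT)
  rw [Set.mem_singleton_iff] at hε
  subst hε
  have h1 : (fun l : Fin n => (curveZ (WR r q κ) (Nat.clog 2 n) l).eval) =
      fun l : Fin n => curveVal (WR r q κ) (Nat.clog 2 n) l := by
    funext l t
    exact curveZ_eval _ _ _ _
  rw [h1] at h
  exact h

end Pool.Agent.Helper62.VT
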