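import Mathlib
import Pool.Agent.Helper62.VT.Family
import Pool.Agent.Helper37.VT.W2

/-!
# Sparse factors of bounded individual degree
-/

namespace Pool.Agent.Helper62.VT

open MvPolynomial
open Pool.Agent.Helper28.D4 (G)
open Pool.Agent.Helper37.VT (Bound PsiS)

variable {n : ℕ}

/-- Sparse polynomials of bounded individual degree. -/
def Sp (S δ : ℕ) (A : MvPolynomial (Fin n) ℂ) : Prop :=
  A.support.card ≤ S ∧ ∀ l, A.degreeOf l ≤ δ

theorem sp_zero (S δ : ℕ) : Sp S δ (0 : MvPolynomial (Fin n) ℂ) := by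
  refine ⟨?_, fun l => ?_⟩
  · rw [support_zero, Finset.card_empty]
    exact Nat.zero_le _
  · rw [degreeOf_zero]
    exact Nat.zero_le _

section

variable {r : ℕ} {e : Fin r → Fin n}

/-- The part of an exponent outside the range of `e`. -/
noncomputable def off (e : Fin r → Fin n) (α : Fin n →₀ ℕ) : Fin n →₀ ℕ := by
  classical exact α.filter fun l => ∀ j, e j ≠ l

/-- The part of an exponent on the range of `e`. -/
noncomputable def onn (e : Fin r → Fin n) (α : Fin n →₀ ℕ) : Fin r →₀ ℕ :=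
  Finsupp.equivFunOnFinite.symm fun j => α (e j)

theorem split_monomial (he : Function.Injective e) (α : Fin n →₀ ℕ) (a : ℂ) :
    split e (X : Fin n → MvPolynomial (Fin n) ℂ) (monomial α a) =
      monomial (onn e α) (monomial (off e α) a) := by
  classical
  rw [monomial_eq, map_mul, Finsupp.prod_fintype _ _ (fun l => pow_zero _), map_prod]
  have h1 : split e (X : Fin n → MvPolynomial (Fin n) ℂ) (C a) = C (C a) := by
    rw [← MvPolynomial.algebraMap_eq, AlgHom.commutes,
      IsScalarTower.algebraMap_apply ℂ (MvPolynomial (Fin n) ℂ)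
        (MvPolynomial (Fin r) (MvPolynomial (Fin n) ℂ)), MvPolynomial.algebraMap_eq,
      MvPolynomial.algebraMap_eq]
  have h2 : ∀ l, split e (X : Fin n → MvPolynomial (Fin n) ℂ) (X l ^ α l) =
      (if ∃ j, e j = l then (split e (X : Fin n → MvPolynomial (Fin n) ℂ) (X l)) ^ α l else 1) *
      C (X l ^ (off e α) l) := by
    intro l
    by_cases hl : ∃ j, e j = l
    · rw [if_pos hl, map_pow]
      have h3 : off e α l = 0 := by
        rw [off]
        exact Finsupp.filter_apply_neg _ _ (fun h => by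
          obtain ⟨j, hj⟩ := hl
          exact h j hj)
      rw [h3, pow_zero, map_one, mul_one]
    · have hl' : ∀ j, e j ≠ l := fun j h => hl ⟨j, h⟩
      rw [if_neg hl, one_mul, map_pow, split_X_not _ hl', ← map_pow]
      have h3 : off e α l = α l := by
        rw [off]
        exact Finsupp.filter_apply_pos _ _ hl'
      rw [h3]
  rw [h1, Finset.prod_congr rfl fun l _ => h2 l, Finset.prod_mul_distrib, ← map_prod]
  have h4 : (∏ l, if ∃ j, e j = l then
      (split e (X : Fin n → MvPolynomial (Fin n) ℂ) (X l)) ^ α l else 1) =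
      monomial (onn e α) (1 : MvPolynomial (Fin n) ℂ) := by
    rw [monomial_eq, Finsupp.prod_fintype _ _ (fun l => pow_zero _), C_1, one_mul]
    have h6 : (Finset.univ.filter fun l => ∃ j, e j = l) = Finset.univ.map ⟨e, he⟩ := by
      ext l
      simp
    rw [← Finset.prod_filter, h6, Finset.prod_map]
    refine Finset.prod_congr rfl fun j _ => ?_
    change (split e (X : Fin n → MvPolynomial (Fin n) ℂ) (X (e j))) ^ α (e j) = _
    rw [split_X_mem he]
    rfl
  rw [h4]
  have h5 : (∏ l, (X l : MvPolynomial (Fin n) ℂ) ^ (off e α) l) = monomial (off e α) 1 := by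
    rw [monomial_eq, Finsupp.prod_fintype _ _ (fun l => pow_zero _), C_1, one_mul]
  rw [h5, mul_comm (monomial (onn e α) (1 : MvPolynomial (Fin n) ℂ)), ← mul_assoc, ← C_mul,
    C_mul_monomial, mul_one, C_mul_monomial, mul_one]

theorem coeff_split (he : Function.Injective e) (A : MvPolynomial (Fin n) ℂ) (k : Fin r →₀ ℕ) :
    (split e (X : Fin n → MvPolynomial (Fin n) ℂ) A).coeff k =
      ∑ α ∈ A.support with onn e α = k, monomial (off e α) (A.coeff α) := by
  classical
  conv_lhs => rw [A.as_sum, map_sum, coeff_sum]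
  rw [Finset.sum_filter]
  refine Finset.sum_congr rfl fun α _ => ?_
  rw [split_monomial he, coeff_monomial]

theorem sp_coeff_split (he : Function.Injective e) {S δ : ℕ} {A : MvPolynomial (Fin n) ℂ}
    (hA : Sp S δ A) (k : Fin r →₀ ℕ) :
    Sp S δ ((split e (X : Fin n → MvPolynomial (Fin n) ℂ) A).coeff k) := by
  classical
  rw [coeff_split he]
  constructor
  · refine le_trans ?_ hA.1
    refine (Finset.card_le_card support_sum).trans ?_
    refine Finset.card_biUnion_le.trans ?_
    refine (Finset.sum_le_card_nsmul _ _ 1 fun α _ => ?_).trans ?_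
    · refine (Finset.card_le_card support_monomial_subset).trans ?_
      rw [Finset.card_singleton]
    · rw [smul_eq_mul, mul_one]
      exact Finset.card_filter_le _ _
  · intro l
    refine (degreeOf_sum_le l _ _).trans (Finset.sup_le fun α hα => ?_)
    refine le_trans ?_ (hA.2 l)
    refine le_trans ?_ (monomial_le_degreeOf l (Finset.mem_filter.1 hα).1)
    rw [degreeOf_le_iff]
    intro β hβ
    have h1 := Finset.mem_singleton.1 (support_monomial_subset hβ)
    rw [h1, off, Finsupp.filter_apply]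
    split_ifs
    · exact le_rfl
    · exact Nat.zero_le _

theorem coeff_split_eq_zero (he : Function.Injective e) {S δ : ℕ} {A : MvPolynomial (Fin n) ℂ}
    (hA : Sp S δ A) (k : Fin r →₀ ℕ) (hk : ∃ j, δ < k j) :
    (split e (X : Fin n → MvPolynomial (Fin n) ℂ) A).coeff k = 0 := by
  classical
  rw [coeff_split he]
  apply Finset.sum_eq_zero
  intro α hα
  exfalso
  obtain ⟨h1, h2⟩ := Finset.mem_filter.1 hα
  obtain ⟨j, hj⟩ := hk
  have h3 := (monomial_le_degreeOf (e j) h1).trans (hA.2 (e j))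
  rw [← h2] at hj
  exact absurd h3 (not_le.2 hj)

end

/-- The parameters of a tuple of sparse polynomials. -/
theorem exists_sparse_params {r R κ S δ : ℕ} {e : Fin r → Fin n} (he : Function.Injective e)
    (hr : r ≤ R) (A : Fin κ → MvPolynomial (Fin n) ℂ) (hA : ∀ j, Sp S δ (A j)) :
    ∃ γ : Fin (κ * (δ + 1) ^ R) → MvPolynomial (Fin n) ℂ, (∀ j, Sp S δ (γ j)) ∧
      ∀ j, split e (X : Fin n → MvPolynomial (Fin n) ℂ) (A j) ∈
        W r (Algebra.adjoin ℂ (Set.range γ)) := by
  classical
  have hcard : Fintype.card (Fin κ × (Fin r → Fin (δ + 1))) ≤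
      Fintype.card (Fin (κ * (δ + 1) ^ R)) := by
    rw [Fintype.card_prod, Fintype.card_fun, Fintype.card_fin, Fintype.card_fin, Fintype.card_fin,
      Fintype.card_fin]
    exact Nat.mul_le_mul_left κ (Nat.pow_le_pow_right (Nat.succ_pos δ) hr)
  obtain ⟨ι⟩ := Function.Embedding.nonempty_of_card_le hcard
  let γ0 : Fin κ × (Fin r → Fin (δ + 1)) → MvPolynomial (Fin n) ℂ := fun p =>
    (split e (X : Fin n → MvPolynomial (Fin n) ℂ) (A p.1)).coeff
      (Finsupp.equivFunOnFinite.symm fun j => (p.2 j : ℕ))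
  have hγ0 : ∀ p, Sp S δ (γ0 p) := fun p => sp_coeff_split he (hA p.1) _
  refine ⟨Function.extend ι γ0 0, ?_, ?_⟩
  · intro j
    by_cases h : ∃ p, ι p = j
    · obtain ⟨p, rfl⟩ := h
      rw [ι.injective.extend_apply]
      exact hγ0 p
    · rw [Function.extend_apply' _ _ _ h]
      exact sp_zero S δ
  · intro j
    rw [mem_W_iff]
    intro k
    by_cases hk : ∃ i, δ < k i
    · rw [coeff_split_eq_zero he (hA j) k hk]
      exact Subalgebra.zero_mem _
    · push Not at hk
      apply Algebra.subset_adjoin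
      refine ⟨ι (j, fun i => ⟨k i, Nat.lt_succ_of_le (hk i)⟩), ?_⟩
      rw [ι.injective.extend_apply]
      change (split e (X : Fin n → MvPolynomial (Fin n) ℂ) (A j)).coeff
        (Finsupp.equivFunOnFinite.symm fun i => k i) = _
      congr 1
      ext i
      rfl

/-- The factors. -/
def SpFactors (n κ S δ : ℕ) : Set (MvPolynomial (Fin n) ℂ) :=
  {f | ∃ (A : Fin κ → MvPolynomial (Fin n) ℂ) (F : MvPolynomial (Fin κ) ℂ),
    (∀ j, Sp S δ (A j)) ∧ f = aeval A F}

/-- The number of parameters of `r + 1` factors. -/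
def MS (r κ δ : ℕ) : ℕ := (r + 1) * (κ * (δ + 1) ^ r)

/-- The bound for the modulus. -/
def BS (n r κ S δ N : ℕ) : ℕ := Bound n (MS r κ δ) S δ ((r * N + 1) ^ (r + 1))

theorem spec_pow (M : ℕ) (w : Fin n → ℕ) :
    spec n M (fun l => Polynomial.X ^ w l) = PsiS n M w := by
  rw [spec, PsiS]
  congr 1
  funext l
  rw [map_pow, Polynomial.aeval_X]

theorem sparse_hits {m r κ S δ N d : ℕ} (P : Fin m → MvPolynomial (Fin n) ℂ)
    (hP : ∀ i, ∃ L : List (MvPolynomial (Fin n) ℂ), L.length ≤ N ∧
      (∀ q ∈ L, q ∈ SpFactors n κ S δ) ∧ P i = L.prod)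
    (hr : ∀ s : Fin (r + 1) → Fin m, ¬ AlgebraicIndependent ℂ fun i => P (s i))
    (g : MvPolynomial (Fin m) ℂ) (h0 : aeval P g ≠ 0) (hd : (aeval P g).totalDegree ≤ d) :
    ∃ p, 1 ≤ p ∧ p ≤ BS n r κ S δ N ∧ ∃ a ∈ pts n (r + MS r κ δ)
      (fun l => ((Polynomial.X : Polynomial ℤ) ^ ((MS r κ δ * δ + 1) ^ (l : ℕ) % p)).eval)
        (d * (BS n r κ S δ N + n)),
      eval (fun l => ((a l : ℤ) : ℂ)) (aeval P g) ≠ 0 := by
  classical
  set E : Set (Fin n → Polynomial ℤ) := {ε | ∃ p, 1 ≤ p ∧ p ≤ BS n r κ S δ N ∧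
    ε = fun l : Fin n => Polynomial.X ^ ((MS r κ δ * δ + 1) ^ (l : ℕ) % p)} with hE
  obtain ⟨ε, hε, h⟩ := exists_point (M := MS r κ δ) (D := BS n r κ S δ N) P hr g h0 hd E (by
      rintro ε ⟨p, hp1, hp2, rfl⟩ l
      rw [Polynomial.natDegree_X_pow]
      exact (Nat.mod_lt _ hp1).le.trans hp2) (b := d * (BS n r κ S δ N + n)) le_rfl (by
      intro r' hr' t ht e he
      choose L hL0 hL1 hL2 using fun i => hP (t i)
      obtain ⟨B, hB1, hB2, f, mm, hf0, hfL, hfP, hBcard⟩ :=
        exists_factorization (fun i => P (t i)) L hL2 ht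
      refine ⟨B, hB1, hB2, f, mm, hf0, hfP, ?_⟩
      have hfac : ∀ b, f b ∈ SpFactors n κ S δ := by
        intro b
        obtain ⟨i, hi⟩ := hfL b
        exact hL1 i _ hi
      choose A F hA hfA using hfac
      choose γ hγ1 hγ2 using fun b => exists_sparse_params he hr' (A b) (hA b)
      have hcardB : Fintype.card B ≤ r * N := by
        rw [hBcard]
        refine (Finset.sum_le_card_nsmul _ _ N fun i _ => hL0 i).trans ?_
        rw [Finset.card_univ, Fintype.card_fin, smul_eq_mul]
        exact Nat.mul_le_mul_right N hr'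
      obtain ⟨ε, hε, hfaith⟩ := faithful_family (t := r' + 1) (M := MS r κ δ)
        (Q := (r * N + 1) ^ (r + 1)) E (fun ε => spec n (MS r κ δ) ε) (sp_zero S δ) γ hγ1
        (Nat.mul_le_mul_right _ (Nat.succ_le_succ hr'))
        ((Nat.pow_le_pow_left (Nat.succ_le_succ hcardB) _).trans
          (Nat.pow_le_pow_right (Nat.succ_pos _) (Nat.succ_le_succ hr')))
        (by
          intro c hc
          obtain ⟨p, hp1, hp2, hp3⟩ := Pool.Agent.Helper37.VT.sparse_faithful n (MS r κ δ) S δ
            ((r * N + 1) ^ (r + 1)) c (fun q j => (hc q j).1) (fun q j => (hc q j).2)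
          refine ⟨_, ⟨p, hp1, hp2, rfl⟩, ?_⟩
          intro q H hH
          rw [spec_pow]
          exact hp3 q H hH)
      refine ⟨fun b => Set.range (γ b), ?_, ε, hε, hfaith⟩
      intro b k
      rw [hfA b]
      exact coeff_split_aeval _ _ _ (hγ2 b) k)
  obtain ⟨p, hp1, hp2, rfl⟩ := hε
  exact ⟨p, hp1, hp2, h⟩

end Pool.Agent.Helper62.VT
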