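import Mathlib
import Pool.Agent.Helper62.VT.Gsparse
import Pool.Agent.Helper62.VT.Sparse
import Pool.Agent.Helper62.D4.Final

/-!
# Factors which are polynomials in few polynomials of bounded degree
-/

namespace Pool.Agent.Helper62.VT

open MvPolynomial
open Pool.Agent.Helper28.D4 (G)

variable {n : ℕ}

/-- The exponent given by a word. -/
noncomputable def wexp {r δ : ℕ} (u : Fin δ → Option (Fin r)) : Fin r →₀ ℕ :=
  ∑ i, (u i).elim 0 fun a => Finsupp.single a 1

theorem exists_wexp {r : ℕ} : ∀ (δ : ℕ) (k : Fin r →₀ ℕ), k.degree ≤ δ →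
    ∃ u : Fin δ → Option (Fin r), wexp u = k := by
  intro δ
  induction δ with
  | zero =>
    intro k hk
    refine ⟨Fin.elim0, ?_⟩
    have h : k = 0 := by
      rw [← Finsupp.degree_eq_zero_iff]
      omega
    rw [h, wexp, Finset.univ_eq_empty, Finset.sum_empty]
  | succ δ ih =>
    intro k hk
    by_cases h0 : k = 0
    · refine ⟨fun _ => none, ?_⟩
      rw [h0, wexp]
      exact Finset.sum_eq_zero fun _ _ => rfl
    · obtain ⟨a, ha⟩ : ∃ a, k a ≠ 0 := by
        by_contra hcon
        push Not at hcon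
        exact h0 (Finsupp.ext hcon)
      have hle : Finsupp.single a 1 ≤ k := by
        rw [Finsupp.single_le_iff]
        omega
      have hk1 : k - Finsupp.single a 1 + Finsupp.single a 1 = k := tsub_add_cancel_of_le hle
      have hdeg : (k - Finsupp.single a 1).degree ≤ δ := by
        have h1 := congrArg Finsupp.degree hk1
        rw [map_add, Finsupp.degree_single] at h1
        omega
      obtain ⟨u, hu⟩ := ih _ hdeg
      refine ⟨Fin.cons (some a) u, ?_⟩
      rw [wexp, Fin.sum_univ_succ]
      simp only [Fin.cons_zero, Fin.cons_succ, Option.elim_some]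
      change Finsupp.single a 1 + wexp u = k
      rw [hu, add_comm]
      exact hk1

section

variable {r : ℕ} {e : Fin r → Fin n}

theorem degree_off_le (α : Fin n →₀ ℕ) : (off e α).degree ≤ α.degree := by
  apply Finsupp.degree_mono
  intro l
  rw [off, Finsupp.filter_apply]
  split_ifs
  · exact le_rfl
  · exact Nat.zero_le _

theorem degree_onn_le (he : Function.Injective e) (α : Fin n →₀ ℕ) :
    (onn e α).degree ≤ α.degree := by
  rw [Finsupp.degree_eq_sum, Finsupp.degree_eq_sum]
  change ∑ j, α (e j) ≤ _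
  have h := Finset.sum_map Finset.univ ⟨e, he⟩ (fun l => α l)
  change _ = ∑ j, α (e j) at h
  rw [← h]
  exact Finset.sum_le_sum_of_subset (Finset.subset_univ _)

theorem totalDegree_coeff_split (he : Function.Injective e) {A : MvPolynomial (Fin n) ℂ}
    (k : Fin r →₀ ℕ) :
    ((split e (X : Fin n → MvPolynomial (Fin n) ℂ) A).coeff k).totalDegree ≤ A.totalDegree := by
  classical
  rw [coeff_split he]
  apply totalDegree_finsetSum_le
  intro α hα
  refine (totalDegree_monomial_le _ _).trans ?_
  exact (degree_off_le α).trans (le_totalDegree (Finset.mem_filter.1 hα).1)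

theorem coeff_split_eq_zero' (he : Function.Injective e) {A : MvPolynomial (Fin n) ℂ}
    (k : Fin r →₀ ℕ) (hk : A.totalDegree < k.degree) :
    (split e (X : Fin n → MvPolynomial (Fin n) ℂ) A).coeff k = 0 := by
  classical
  rw [coeff_split he]
  apply Finset.sum_eq_zero
  intro α hα
  exfalso
  obtain ⟨h1, h2⟩ := Finset.mem_filter.1 hα
  have h3 := (degree_onn_le he α).trans (le_totalDegree h1)
  rw [h2] at h3
  exact absurd h3 (not_le.2 hk)

end

/-- The parameters of a tuple of polynomials of bounded degree. -/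
theorem exists_deg_params {r R κ δ : ℕ} {e : Fin r → Fin n} (he : Function.Injective e)
    (hr : r ≤ R) (A : Fin κ → MvPolynomial (Fin n) ℂ) (hA : ∀ j, (A j).totalDegree ≤ δ) :
    ∃ γ : Fin (κ * (R + 1) ^ δ) → MvPolynomial (Fin n) ℂ, (∀ j, (γ j).totalDegree ≤ δ) ∧
      ∀ j, split e (X : Fin n → MvPolynomial (Fin n) ℂ) (A j) ∈
        W r (Algebra.adjoin ℂ (Set.range γ)) := by
  classical
  have hcard : Fintype.card (Fin κ × (Fin δ → Option (Fin r))) ≤
      Fintype.card (Fin (κ * (R + 1) ^ δ)) := by
    rw [Fintype.card_prod, Fintype.card_fun, Fintype.card_option, Fintype.card_fin,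
      Fintype.card_fin, Fintype.card_fin, Fintype.card_fin]
    exact Nat.mul_le_mul_left κ (Nat.pow_le_pow_left (Nat.succ_le_succ hr) δ)
  obtain ⟨ι⟩ := Function.Embedding.nonempty_of_card_le hcard
  let γ0 : Fin κ × (Fin δ → Option (Fin r)) → MvPolynomial (Fin n) ℂ := fun p =>
    (split e (X : Fin n → MvPolynomial (Fin n) ℂ) (A p.1)).coeff (wexp p.2)
  refine ⟨Function.extend ι γ0 0, ?_, ?_⟩
  · intro j
    by_cases h : ∃ p, ι p = j
    · obtain ⟨p, rfl⟩ := h
      rw [ι.injective.extend_apply]
      exact (totalDegree_coeff_split he _).trans (hA _)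
    · rw [Function.extend_apply' _ _ _ h]
      change (0 : MvPolynomial (Fin n) ℂ).totalDegree ≤ δ
      rw [totalDegree_zero]
      exact Nat.zero_le δ
  · intro j
    rw [mem_W_iff]
    intro k
    by_cases hk : k.degree ≤ δ
    · apply Algebra.subset_adjoin
      obtain ⟨u, hu⟩ := exists_wexp δ k hk
      refine ⟨ι (j, u), ?_⟩
      rw [ι.injective.extend_apply]
      change (split e (X : Fin n → MvPolynomial (Fin n) ℂ) (A j)).coeff (wexp u) = _
      rw [hu]
    · rw [coeff_split_eq_zero' he k (lt_of_le_of_lt (hA j) (not_le.1 hk))]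
      exact Subalgebra.zero_mem _

/-- A nonzero polynomial of degree at most `D` does not vanish at some value of the generator with
`D` blocks. -/
theorem exists_G_of_degree (D : ℕ) (g : MvPolynomial (Fin n) ℂ) (hg : g ≠ 0)
    (hD : g.totalDegree ≤ D) : ∃ z w : Fin D → ℂ, eval (fun l => G n D z w l) g ≠ 0 := by
  classical
  obtain ⟨α, hα⟩ : g.support.Nonempty := by
    rw [Finset.nonempty_iff_ne_empty, Ne, MvPolynomial.support_eq_empty]
    exact hg
  -- restriction to the variables of `α`
  let ρ : MvPolynomial (Fin n) ℂ →ₐ[ℂ] MvPolynomial (Fin n) ℂ :=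
    aeval fun l => if l ∈ α.support then X l else 0
  have hρ : ∀ β : Fin n →₀ ℕ, ∀ c : ℂ, ρ (monomial β c) =
      if β.support ⊆ α.support then monomial β c else 0 := by
    intro β c
    change aeval _ (monomial β c) = _
    rw [aeval_monomial, Finsupp.prod_fintype _ _ (fun l => pow_zero _)]
    split_ifs with h
    · rw [monomial_eq, Finsupp.prod_fintype _ _ (fun l => pow_zero _)]
      congr 1
      refine Finset.prod_congr rfl fun l _ => ?_
      by_cases hl : l ∈ α.support
      · rw [if_pos hl]
      · rw [if_neg hl]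
        have : β l = 0 := by
          by_contra h0
          exact hl (h (Finsupp.mem_support_iff.2 h0))
        rw [this, pow_zero, pow_zero]
    · rw [Finset.not_subset] at h
      obtain ⟨l, hl1, hl2⟩ := h
      rw [Finset.prod_eq_zero (Finset.mem_univ l), mul_zero]
      rw [if_neg hl2, zero_pow (Finsupp.mem_support_iff.1 hl1)]
  have hne : ρ g ≠ 0 := by
    intro h0
    have h1 : coeff α (ρ g) = coeff α g := by
      conv_lhs => rw [g.as_sum, map_sum, coeff_sum]
      rw [Finset.sum_eq_single α]
      · rw [hρ, if_pos (Finset.Subset.refl _), coeff_monomial, if_pos rfl]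
      · intro β _ hβ
        rw [hρ]
        split_ifs
        · rw [coeff_monomial, if_neg hβ]
        · exact coeff_zero _
      · intro h
        exact absurd hα h
    rw [h0, coeff_zero] at h1
    exact (mem_support_iff.1 hα) h1.symm
  obtain ⟨v, hv⟩ := Pool.Agent.Helper28.D4.exists_eval_ne_zero _ hne
  have hcard : α.support.card ≤ D := by
    refine le_trans ?_ ((le_totalDegree hα).trans hD)
    rw [Finset.card_eq_sum_ones]
    exact Finset.sum_le_sum fun l hl => Nat.one_le_iff_ne_zero.2 (Finsupp.mem_support_iff.1 hl)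
  obtain ⟨z, w, hzw⟩ := G_sparse D α.support hcard
    (fun l => if l ∈ α.support then v l else 0) (fun l hl => if_neg hl)
  refine ⟨z, w, ?_⟩
  have h2 : eval v (ρ g) = eval (fun l => G n D z w l) g := by
    rw [Pool.Agent.Helper28.D4.eval_aeval_comp]
    congr 2
    funext l
    rw [hzw]
    split_ifs
    · rw [eval_X]
    · rw [map_zero]
  rw [← h2]
  exact hv

theorem totalDegree_det_le {t : ℕ} (N : Matrix (Fin t) (Fin t) (MvPolynomial (Fin n) ℂ)) (δ : ℕ)
    (hN : ∀ i j, (N i j).totalDegree ≤ δ) : N.det.totalDegree ≤ t * δ := by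
  rw [Matrix.det_apply]
  apply totalDegree_finsetSum_le
  intro σ _
  rw [Units.smul_def, zsmul_eq_mul]
  refine (totalDegree_mul _ _).trans ?_
  have h1 : (((Equiv.Perm.sign σ : ℤ) : MvPolynomial (Fin n) ℂ)).totalDegree = 0 := by
    have : (((Equiv.Perm.sign σ : ℤ) : MvPolynomial (Fin n) ℂ)) =
        C ((Equiv.Perm.sign σ : ℤ) : ℂ) := by
      rw [map_intCast]
    rw [this, totalDegree_C]
  rw [h1, zero_add]
  refine (totalDegree_finsetProd _ _).trans ?_
  refine (Finset.sum_le_card_nsmul _ _ δ fun i _ => hN _ _).trans ?_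
  rw [Finset.card_univ, Fintype.card_fin, smul_eq_mul]

/-- **Faithfulness for polynomials of bounded degree.** -/
theorem deg_faithful (n M δ : ℕ) (c : Fin M → MvPolynomial (Fin n) ℂ)
    (hc : ∀ j, (c j).totalDegree ≤ δ) (H : MvPolynomial (Fin M) ℂ) (h0 : aeval c H ≠ 0) :
    spec n (M * δ + M) (fun _ => 0) (aeval c H) ≠ 0 := by
  classical
  obtain ⟨t, ht, s, hs, B, g, hB, hBg⟩ := Pool.Agent.Helper28.D4.norm_trick (r := M) c (by
    intro s hs
    have : Function.Injective s := fun i j hij => hs.injective (by simp [hij])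
    have := Fintype.card_le_of_injective s this
    simp at this) H h0
  intro h0'
  have h1 := congrArg (spec n (M * δ + M) (fun _ => 0)) hBg
  rw [map_mul, h0', zero_mul, comp_aeval_apply] at h1
  obtain ⟨e, hdet⟩ := Pool.Agent.Helper93.D4.jac_of_algInd (fun i => c (s i)) hs
  have he : Function.Injective e := by
    intro j k hjk
    by_contra hne
    apply hdet
    apply Matrix.det_zero_of_column_eq hne
    intro i
    simp [hjk]
  have hdeg : (Matrix.of fun i j => MvPolynomial.pderiv (e j) (c (s i))).det.totalDegree ≤ M * δ :=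
    (totalDegree_det_le _ δ fun i j =>
      (Pool.Agent.Helper62.D4.totalDegree_pderiv_le _ _).trans (hc _)).trans
        (Nat.mul_le_mul_right δ ht)
  obtain ⟨z, w, hzw⟩ := exists_G_of_degree (M * δ) _ hdet hdeg
  have h2 := algInd_of_minor (M := M) ht (fun i => c (s i)) e he z w hzw
  rw [algebraicIndependent_iff] at h2
  exact hB (h2 B h1)

/-- The factors. -/
def DegFactors (n κ δ : ℕ) : Set (MvPolynomial (Fin n) ℂ) :=
  {f | ∃ (A : Fin κ → MvPolynomial (Fin n) ℂ) (F : MvPolynomial (Fin κ) ℂ),
    (∀ j, (A j).totalDegree ≤ δ) ∧ f = aeval A F}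

/-- The number of parameters of `r + 1` factors. -/
def MD (r κ δ : ℕ) : ℕ := (r + 1) * (κ * (r + 1) ^ δ)

theorem deg_hits {m r κ δ d : ℕ} (P : Fin m → MvPolynomial (Fin n) ℂ)
    (hP : ∀ i, P i ∈ Submonoid.closure (DegFactors n κ δ))
    (hr : ∀ s : Fin (r + 1) → Fin m, ¬ AlgebraicIndependent ℂ fun i => P (s i))
    (g : MvPolynomial (Fin m) ℂ) (h0 : aeval P g ≠ 0) (hd : (aeval P g).totalDegree ≤ d) :
    ∃ a ∈ pts n (r + (MD r κ δ * δ + MD r κ δ)) (fun _ _ => 0) (d * n),
      eval (fun l => ((a l : ℤ) : ℂ)) (aeval P g) ≠ 0 := by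
  classical
  obtain ⟨ε, hε, h⟩ := exists_point (M := MD r κ δ * δ + MD r κ δ) (D := 0) P hr g h0 hd
    {fun _ : Fin n => 0} (by
      rintro ε rfl l
      rw [Polynomial.natDegree_zero]) (b := d * n) (by
      rw [zero_add]) (by
      intro r' hr' t ht e he
      have hL : ∀ i, ∃ L : List (MvPolynomial (Fin n) ℂ), (∀ q ∈ L, q ∈ DegFactors n κ δ) ∧
          P (t i) = L.prod := fun i => by
        obtain ⟨L, hL, h⟩ := Submonoid.exists_list_of_mem_closure (hP (t i))
        exact ⟨L, hL, h.symm⟩
      choose L hL1 hL2 using hL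
      obtain ⟨B, hB1, hB2, f, mm, hf0, hfL, hfP, -⟩ :=
        exists_factorization (fun i => P (t i)) L hL2 ht
      refine ⟨B, hB1, hB2, f, mm, hf0, hfP, ?_⟩
      have hfac : ∀ b, f b ∈ DegFactors n κ δ := by
        intro b
        obtain ⟨i, hi⟩ := hfL b
        exact hL1 i _ hi
      choose A F hA hfA using hfac
      choose γ hγ1 hγ2 using fun b => exists_deg_params he hr' (A b) (hA b)
      refine ⟨fun b => Set.range (γ b), ?_, fun _ => 0, rfl, ?_⟩
      · intro b k
        rw [hfA b]
        exact coeff_split_aeval _ _ _ (hγ2 b) k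
      · intro T hT
        exact faithful_of_tuple (Q := fun q => q.totalDegree ≤ δ) _
          (by rw [totalDegree_zero]; exact Nat.zero_le δ) γ hγ1 (t := r' + 1)
          (Nat.mul_le_mul_right _ (Nat.succ_le_succ hr'))
          (fun c hc H hH => deg_faithful n (MD r κ δ) δ c hc H hH) T hT)
  rw [Set.mem_singleton_iff] at hε
  subst hε
  have h1 : (fun _ : Fin n => (0 : Polynomial ℤ).eval) = fun (_ : Fin n) (_ : ℤ) => (0 : ℤ) := by
    funext l t
    exact Polynomial.eval_zero
  rw [h1] at h
  exact h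

/-! ### Points without the curve -/

/-- The values of the generator at integer parameters. -/
def gpts (n K b : ℕ) : Finset (Fin n → ℤ) :=
  (Finset.univ : Finset ((Fin K → Fin (b + 1)) × (Fin K → Fin (b + 1)))).image
    fun c l => G n K (fun j => ((c.1 j : ℕ) : ℤ)) (fun j => ((c.2 j : ℕ) : ℤ)) l

theorem gpts_card (n K b : ℕ) : (gpts n K b).card ≤ (b + 1) ^ (2 * K) := by
  refine Finset.card_image_le.trans (le_of_eq ?_)
  rw [Finset.card_univ, Fintype.card_prod, Fintype.card_fun, Fintype.card_fin, Fintype.card_fin]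
  ring

theorem pts_zero_subset (n K b : ℕ) : pts n K (fun _ _ => 0) b ⊆ gpts n K b := by
  intro a ha
  obtain ⟨⟨t, z, w⟩, -, rfl⟩ := Finset.mem_image.1 ha
  refine Finset.mem_image.2 ⟨(z, w), Finset.mem_univ _, ?_⟩
  funext l
  change _ = (0 : ℤ) + _
  rw [zero_add]

end Pool.Agent.Helper62.VT
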