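import Mathlib
import Pool.Agent.Helper62.VT.RF
import Pool.Agent.Helper62.VT.Gsparse
import Pool.Agent.Helper45.VT.RO1
import Pool.Agent.Helper13.VT.RO4
import Pool.Agent.Helper64.Cube

/-!
# Minors of read-once formulas are hit by the generator
-/

namespace Pool.Agent.Helper62.VT

open MvPolynomial
open Pool.Agent.Helper28.D4 (G)
open Pool.Agent.Helper64.Cube (cube_lemma)

variable {n : ℕ}

/-! ### Formulas on the Boolean cube -/

/-- The point of the cube. -/
def cpoint (a p : Fin n → ℂ) (x : Fin n → Bool) (l : Fin n) : ℂ := if x l then a l else p l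

theorem eval_leaf (l : Fin n) (T : Polynomial ℂ) (x : Fin n → ℂ) :
    eval x (RF.leaf l T).poly = T.eval (x l) := by
  change eval x (Polynomial.aeval (X l) T) = _
  have h := Polynomial.aeval_algHom_apply (MvPolynomial.aeval (R := ℂ) x) (X l) T
  rw [aeval_X] at h
  have h2 : ∀ q : MvPolynomial (Fin n) ℂ, MvPolynomial.aeval (R := ℂ) x q = eval x q :=
    fun q => rfl
  rw [h2, Polynomial.coe_aeval_eq_eval] at h
  exact h.symm

/-- Formulas whose multiplication children do not vanish on the cube are tree functions. -/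
theorem RF.tf (a p : Fin n → ℂ) : ∀ (f : RF n), f.RO →
    (∀ h ∈ f.mc, ∀ x : Fin n → Bool, eval (cpoint a p x) h.poly ≠ 0) →
    TF f.vars (fun x => eval (cpoint a p x) f.poly) := by
  intro f
  induction f with
  | const c =>
    intro _ _
    have h : (fun x : Fin n → Bool => eval (cpoint a p x) (RF.const c : RF n).poly) = fun _ => c := by
      funext x
      change eval (cpoint a p x) (C c) = c
      rw [eval_C]
    rw [h]
    exact TF.const c
  | leaf l T =>
    intro _ _
    have h : (fun x : Fin n → Bool => eval (cpoint a p x) (RF.leaf l T).poly) =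
        fun x => (fun s : Bool => T.eval (if s then a l else p l)) (x l) := by
      funext x
      rw [eval_leaf]
      rfl
    rw [h]
    exact TF.leaf l (fun s : Bool => T.eval (if s then a l else p l))
  | add f g hf hg =>
    intro hRO hmc
    have h : (fun x : Fin n → Bool => eval (cpoint a p x) (RF.add f g).poly) =
        fun x => eval (cpoint a p x) f.poly + eval (cpoint a p x) g.poly := by
      funext x
      exact map_add _ _ _
    rw [h]
    exact TF.add (hf hRO.1 fun q hq => hmc q (List.mem_append_left _ hq))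
      (hg hRO.2.1 fun q hq => hmc q (List.mem_append_right _ hq)) hRO.2.2
  | mul f g hf hg =>
    intro hRO hmc
    have h : (fun x : Fin n → Bool => eval (cpoint a p x) (RF.mul f g).poly) =
        fun x => eval (cpoint a p x) f.poly * eval (cpoint a p x) g.poly := by
      funext x
      exact map_mul _ _ _
    rw [h]
    have hf' : ∀ q ∈ f.mc, q ∈ (RF.mul f g).mc := fun q hq =>
      List.mem_cons_of_mem _ (List.mem_cons_of_mem _ (List.mem_append_left _ hq))
    have hg' : ∀ q ∈ g.mc, q ∈ (RF.mul f g).mc := fun q hq =>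
      List.mem_cons_of_mem _ (List.mem_cons_of_mem _ (List.mem_append_right _ hq))
    exact TF.mul (hf hRO.1 fun q hq => hmc q (hf' q hq)) (hg hRO.2.1 fun q hq => hmc q (hg' q hq))
      hRO.2.2 (hmc f List.mem_cons_self)
      (hmc g (List.mem_cons_of_mem _ List.mem_cons_self))

/-- The value of `theta` is a value of the generator. -/
theorem eval_theta (π : Fin 2 → ℂ) (f : MvPolynomial (Fin n) ℂ) :
    eval π (theta n f) = eval (fun l => G n 1 (fun _ => π 0) (fun _ => π 1) l) f := by
  rw [theta, Pool.Agent.Helper28.D4.eval_aeval_comp]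
  congr 2
  funext l
  rw [G, Fin.sum_univ_one, map_mul, map_prod]
  simp

/-- **Minors are hit.** -/
theorem minor_hits {t : ℕ} (E : Fin t → Fin t → RF n) (hRO : ∀ i j, (E i j).RO)
    (hdet : (Matrix.of fun i j => (E i j).poly).det ≠ 0) :
    ∃ (z w : Fin (1 + N0 t) → ℂ),
      eval (fun l => G n (1 + N0 t) z w l) (Matrix.of fun i j => (E i j).poly).det ≠ 0 := by
  classical
  choose E' hRO' _ hpoly hmc using fun i j => RF.normal (E i j) (hRO i j)
  have hmat : (Matrix.of fun i j => (E i j).poly) = Matrix.of fun i j => (E' i j).poly := by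
    ext1 i j
    rw [Matrix.of_apply, Matrix.of_apply, hpoly]
  rw [hmat] at hdet ⊢
  set D := (Matrix.of fun i j => (E' i j).poly).det with hD
  -- all multiplication children
  set Λ : List (RF n) := (Finset.univ : Finset (Fin t × Fin t)).toList.flatMap
    fun q => (E' q.1 q.2).mc with hΛ
  have hΛ1 : ∀ h ∈ Λ, h.RO ∧ h.poly ≠ 0 := by
    intro h hh
    rw [hΛ, List.mem_flatMap] at hh
    obtain ⟨q, _, hq⟩ := hh
    exact hmc _ _ h hq
  have hΛ2 : ∀ i j, ∀ h ∈ (E' i j).mc, h ∈ Λ := by
    intro i j h hh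
    rw [hΛ, List.mem_flatMap]
    exact ⟨(i, j), Finset.mem_toList.2 (Finset.mem_univ _), hh⟩
  -- the point `p`
  have h1 : ((Λ.map fun h => theta n h.poly).prod) ≠ 0 := by
    rw [Ne, List.prod_eq_zero_iff, List.mem_map]
    rintro ⟨h, hh, h0⟩
    exact RF.theta_ne_zero h (hΛ1 h hh).1 (hΛ1 h hh).2 h0
  obtain ⟨π, hπ⟩ := Pool.Agent.Helper28.D4.exists_eval_ne_zero _ h1
  set p : Fin n → ℂ := fun l => G n 1 (fun _ => π 0) (fun _ => π 1) l with hp
  have hp1 : ∀ h ∈ Λ, eval p h.poly ≠ 0 := by
    intro h hh h0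
    apply hπ
    rw [map_list_prod, List.map_map, List.prod_eq_zero_iff, List.mem_map]
    refine ⟨h, hh, ?_⟩
    rw [Function.comp_apply, eval_theta]
    exact h0
  -- the point `a`
  let mix : (Fin n → Bool) → MvPolynomial (Fin n) ℂ →ₐ[ℂ] MvPolynomial (Fin n) ℂ := fun x =>
    aeval fun l => if x l then X l else C (p l)
  have hmix : ∀ (x : Fin n → Bool) (a : Fin n → ℂ) (f : MvPolynomial (Fin n) ℂ),
      eval a (mix x f) = eval (cpoint a p x) f := by
    intro x a f
    rw [Pool.Agent.Helper28.D4.eval_aeval_comp]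
    congr 2
    funext l
    rw [cpoint]
    split_ifs
    · rw [eval_X]
    · rw [eval_C]
  have hpp : ∀ x, cpoint p p x = p := by
    intro x
    funext l
    rw [cpoint, ite_self]
  have h2 : D * ∏ x : Fin n → Bool, (Λ.map fun h => mix x h.poly).prod ≠ 0 := by
    refine mul_ne_zero hdet (Finset.prod_ne_zero_iff.2 fun x _ => ?_)
    rw [Ne, List.prod_eq_zero_iff, List.mem_map]
    rintro ⟨h, hh, h0⟩
    apply hp1 h hh
    have := hmix x p h.poly
    rw [h0, map_zero, hpp] at this
    exact this.symm
  obtain ⟨a, ha⟩ := Pool.Agent.Helper28.D4.exists_eval_ne_zero _ h2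
  rw [map_mul, mul_ne_zero_iff, map_prod, Finset.prod_ne_zero_iff] at ha
  obtain ⟨ha1, ha2⟩ := ha
  have ha3 : ∀ h ∈ Λ, ∀ x : Fin n → Bool, eval (cpoint a p x) h.poly ≠ 0 := by
    intro h hh x h0
    apply ha2 x (Finset.mem_univ x)
    rw [map_list_prod, List.map_map, List.prod_eq_zero_iff, List.mem_map]
    refine ⟨h, hh, ?_⟩
    rw [Function.comp_apply, hmix]
    exact h0
  -- the cube lemma
  have hev : ∀ y : Fin n → ℂ, eval y D = (Matrix.of fun i j => eval y (E' i j).poly).det := by
    intro y
    rw [hD, RingHom.map_det]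
    congr 1
  obtain ⟨A, hA1, hA2⟩ := cube_lemma (fun i j x => eval (cpoint a p x) (E' i j).poly)
    (fun i j => ⟨_, RF.tf a p (E' i j) (hRO' i j) fun h hh x => ha3 h (hΛ2 i j h hh) x⟩) (by
      rw [← hev]
      have : cpoint a p (fun _ => true) = a := by
        funext l
        rw [cpoint, if_pos rfl]
      rw [this]
      exact ha1)
  obtain ⟨z', w', hzw⟩ := G_sparse (N0 t) A hA1 (fun l => if l ∈ A then a l - p l else 0)
    (fun l hl => if_neg hl)
  refine ⟨Fin.append (fun _ => π 0) z', Fin.append (fun _ => π 1) w', ?_⟩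
  rw [hev]
  convert hA2 using 5
  rename_i i j
  refine congrArg (fun y => eval y (E' i j).poly) (funext fun l => ?_)
  rw [G_append, hzw, cpoint]
  change p l + _ = _
  by_cases hl : l ∈ A
  · rw [if_pos hl, if_pos (by simpa using hl)]
    ring
  · rw [if_neg hl, if_neg (by simpa using hl), add_zero]

end Pool.Agent.Helper62.VT
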