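import Mathlib
import Pool.Agent.Helper62.VT.RO3

/-!
# The generator is faithful for few read-once formulas; the hitting set theorem
-/

namespace Pool.Agent.Helper62.VT

open MvPolynomial
open Pool.Agent.Helper28.D4 (G)
open Pool.Agent.Helper64.Cube (N0_mono)
open Pool.Agent.Helper28.VT (kap kap_ne sp sp_X_mem sp_X_notMem pderiv_sp)

variable {n : ℕ}

/-- Polynomials computed by read-once formulas. -/
def IsROF (f : MvPolynomial (Fin n) ℂ) : Prop := ∃ F : RF n, F.RO ∧ F.poly = f

theorem isROF_zero : IsROF (0 : MvPolynomial (Fin n) ℂ) :=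
  ⟨RF.const 0, trivial, C_0⟩

/-- **Faithfulness for read-once formulas.** -/
theorem ro_faithful (n M : ℕ) (c : Fin M → MvPolynomial (Fin n) ℂ) (hc : ∀ j, IsROF (c j))
    (H : MvPolynomial (Fin M) ℂ) (h0 : aeval c H ≠ 0) :
    spec n ((1 + N0 M) + M) (fun _ => 0) (aeval c H) ≠ 0 := by
  classical
  obtain ⟨t, ht, s, hs, B, g, hB, hBg⟩ := Pool.Agent.Helper28.D4.norm_trick (r := M) c (by
    intro s hs
    have : Function.Injective s := fun i j hij => hs.injective (by simp [hij])
    have := Fintype.card_le_of_injective s this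
    simp at this) H h0
  intro h0'
  have h1 := congrArg (spec n ((1 + N0 M) + M) (fun _ => 0)) hBg
  rw [map_mul, h0', zero_mul, comp_aeval_apply] at h1
  obtain ⟨e, hdet⟩ := Pool.Agent.Helper93.D4.jac_of_algInd (fun i => c (s i)) hs
  have he : Function.Injective e := by
    intro j k hjk
    by_contra hne
    apply hdet
    apply Matrix.det_zero_of_column_eq hne
    intro i
    simp [hjk]
  have hE : ∀ i j, ∃ E : RF n, E.RO ∧ E.poly = MvPolynomial.pderiv (e j) (c (s i)) := by
    intro i j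
    obtain ⟨F, hF1, hF2⟩ := hc (s i)
    obtain ⟨E, hE1, -, hE2⟩ := RF.pderiv F hF1 (e j)
    exact ⟨E, hE1, by rw [hE2, hF2]⟩
  choose E hE1 hE2 using hE
  have hmat : (Matrix.of fun i j => MvPolynomial.pderiv (e j) (c (s i))) =
      Matrix.of fun i j => (E i j).poly := by
    ext1 i j
    rw [Matrix.of_apply, Matrix.of_apply, hE2]
  obtain ⟨z, w, hzw⟩ := minor_hits E hE1 (by rw [← hmat]; exact hdet)
  rw [← hmat] at hzw
  obtain ⟨k, hk⟩ := Nat.exists_eq_add_of_le (Nat.add_le_add_left (N0_mono ht) 1)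
  have h2 : AlgebraicIndependent ℂ
      (fun i => spec n ((1 + N0 t + k) + M) (fun _ => 0) (c (s i))) := by
    refine algInd_of_minor ht (fun i => c (s i)) e he (Fin.append z (fun _ => 0))
      (Fin.append w (fun _ => 0)) ?_
    have h3 : (fun l => G n (1 + N0 t + k) (Fin.append z (fun _ => 0)) (Fin.append w (fun _ => 0)) l) =
        fun l => G n (1 + N0 t) z w l := by
      funext l
      rw [G_append, G_zero, add_zero]
    rw [h3]
    exact hzw
  rw [← hk] at h2
  rw [algebraicIndependent_iff] at h2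
  exact hB (h2 B h1)

/-! ### The hitting set -/

/-- The parameters of a tuple of read-once formulas. -/
theorem exists_ro_params {r R κ : ℕ} {e : Fin r → Fin n} (he : Function.Injective e)
    (hr : r ≤ R) (A : Fin κ → MvPolynomial (Fin n) ℂ) (hA : ∀ j, IsROF (A j)) :
    ∃ γ : Fin (κ * 2 ^ R) → MvPolynomial (Fin n) ℂ, (∀ j, IsROF (γ j)) ∧
      ∀ j, split e (X : Fin n → MvPolynomial (Fin n) ℂ) (A j) ∈
        W r (Algebra.adjoin ℂ (Set.range γ)) := by
  classical
  choose F hF1 hF2 using hA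
  choose γ0 hγ1 hγ2 using fun j => RF.exists_params e he (F j) (hF1 j)
  have hcard : Fintype.card (Fin κ × (Fin r → Bool)) ≤ Fintype.card (Fin (κ * 2 ^ R)) := by
    rw [Fintype.card_prod, Fintype.card_fun, Fintype.card_fin, Fintype.card_fin, Fintype.card_fin,
      Fintype.card_bool]
    exact Nat.mul_le_mul_left κ (Nat.pow_le_pow_right (by norm_num) hr)
  obtain ⟨ι⟩ := Function.Embedding.nonempty_of_card_le hcard
  let γ1 : Fin κ × (Fin r → Bool) → MvPolynomial (Fin n) ℂ := fun p => (γ0 p.1 p.2).poly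
  refine ⟨Function.extend ι γ1 0, ?_, ?_⟩
  · intro j
    by_cases h : ∃ p, ι p = j
    · obtain ⟨p, rfl⟩ := h
      rw [ι.injective.extend_apply]
      exact ⟨_, hγ1 _ _, rfl⟩
    · rw [Function.extend_apply' _ _ _ h]
      exact isROF_zero
  · intro j
    rw [← hF2 j]
    refine W_mono (Algebra.adjoin_mono ?_) (hγ2 j)
    rintro _ ⟨s, rfl⟩
    refine ⟨ι (j, s), ?_⟩
    rw [ι.injective.extend_apply]

/-- The factors. -/
def ROFactors (n κ : ℕ) : Set (MvPolynomial (Fin n) ℂ) :=
  {f | ∃ (A : Fin κ → MvPolynomial (Fin n) ℂ) (F : MvPolynomial (Fin κ) ℂ),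
    (∀ j, IsROF (A j)) ∧ f = aeval A F}

/-- The number of parameters of `r + 1` factors. -/
def MRO (r κ : ℕ) : ℕ := (r + 1) * (κ * 2 ^ r)

/-- The number of blocks of the generator. -/
def KRO (r κ : ℕ) : ℕ := r + ((1 + N0 (MRO r κ)) + MRO r κ)

theorem ro_hits {m r κ d : ℕ} (P : Fin m → MvPolynomial (Fin n) ℂ)
    (hP : ∀ i, P i ∈ Submonoid.closure (ROFactors n κ))
    (hr : ∀ s : Fin (r + 1) → Fin m, ¬ AlgebraicIndependent ℂ fun i => P (s i))
    (g : MvPolynomial (Fin m) ℂ) (h0 : aeval P g ≠ 0) (hd : (aeval P g).totalDegree ≤ d) :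
    ∃ a ∈ pts n (KRO r κ) (fun _ _ => 0) (d * n),
      eval (fun l => ((a l : ℤ) : ℂ)) (aeval P g) ≠ 0 := by
  classical
  obtain ⟨ε, hε, h⟩ := exists_point (M := (1 + N0 (MRO r κ)) + MRO r κ) (D := 0) P hr g h0 hd
    {fun _ : Fin n => 0} (by
      rintro ε rfl l
      rw [Polynomial.natDegree_zero]) (b := d * n) (by
      rw [zero_add]) (by
      intro r' hr' t ht e he
      have hL : ∀ i, ∃ L : List (MvPolynomial (Fin n) ℂ), (∀ q ∈ L, q ∈ ROFactors n κ) ∧
          P (t i) = L.prod := fun i => by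
        obtain ⟨L, hL, h⟩ := Submonoid.exists_list_of_mem_closure (hP (t i))
        exact ⟨L, hL, h.symm⟩
      choose L hL1 hL2 using hL
      obtain ⟨B, hB1, hB2, f, mm, hf0, hfL, hfP, -⟩ :=
        exists_factorization (fun i => P (t i)) L hL2 ht
      refine ⟨B, hB1, hB2, f, mm, hf0, hfP, ?_⟩
      have hfac : ∀ b, f b ∈ ROFactors n κ := by
        intro b
        obtain ⟨i, hi⟩ := hfL b
        exact hL1 i _ hi
      choose A F hA hfA using hfac
      choose γ hγ1 hγ2 using fun b => exists_ro_params he hr' (A b) (hA b)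
      refine ⟨fun b => Set.range (γ b), ?_, fun _ => 0, rfl, ?_⟩
      · intro b k
        rw [hfA b]
        exact coeff_split_aeval _ _ _ (hγ2 b) k
      · intro T hT
        exact faithful_of_tuple _ isROF_zero γ hγ1 (t := r' + 1)
          (Nat.mul_le_mul_right _ (Nat.succ_le_succ hr'))
          (fun c hc H hH => ro_faithful n (MRO r κ) c hc H hH) T hT)
  rw [Set.mem_singleton_iff] at hε
  subst hε
  have h1 : (fun _ : Fin n => (0 : Polynomial ℤ).eval) = fun (_ : Fin n) (_ : ℤ) => (0 : ℤ) := by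
    funext l t
    exact Polynomial.eval_zero
  rw [h1] at h
  exact h

end Pool.Agent.Helper62.VT
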